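import Pool.Agent.Y560.TG.Stm

set_option autoImplicit false

/-! Project TG (helper560), job PL: structures with names are variations in place, in a Borel
way. -/

namespace Pool.Agent.Y560.TG.PL

open Set MeasureTheory
open Pool.Agent.Y560.TG
open Pool.Agent.H899R2.VP (St Adj PIso BF IsoOn idOn inv comp zipSet)
open Pool.Agent.H533R2.VO (RS lift put OS Ic RIso Dich VC BlkV S_FINAL)
open Pool.Agent.H566P (ar R2 v2 a0 a1 lt ac co mk LA LL MB lab sh prec pull S_ACC S_MSG)

/-! ### Counting in a measurable way -/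

theorem nth_iff (p : ℕ → Prop) [DecidablePred p] (n y : ℕ) : Nat.nth p n = y ↔
    (p y ∧ Nat.count p y = n) ∨ (y = 0 ∧ ¬ ∃ m, p m ∧ Nat.count p m = n) := by
  by_cases h : ∃ m, p m ∧ Nat.count p m = n
  · obtain ⟨m, h1, h2⟩ := h
    have h3 : Nat.nth p n = m := by rw [← h2]; exact Nat.nth_count h1
    rw [h3]
    constructor
    · rintro rfl
      exact Or.inl ⟨h1, h2⟩
    · rintro (⟨h4, h5⟩ | ⟨-, h5⟩)
      · rw [← h3, ← h5]
        exact Nat.nth_count h4
      · exact absurd ⟨m, h1, h2⟩ h5
  · have h3 : Nat.nth p n = 0 := by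
      by_contra h4
      apply h
      have h5 : ∀ hf : (Set.ofPred p).Finite, n < hf.toFinset.card := by
        intro hf
        by_contra h6
        exact h4 (Nat.nth_of_card_le hf (not_lt.1 h6))
      exact ⟨Nat.nth p n, Nat.nth_mem n h5, Nat.count_nth h5⟩
    rw [h3]
    constructor
    · rintro rfl
      exact Or.inr ⟨rfl, h⟩
    · rintro (⟨h4, h5⟩ | ⟨h5, -⟩)
      · exact absurd ⟨y, h4, h5⟩ h
      · exact h5.symm

theorem meas_count {Ω : Type} [MeasurableSpace Ω] (p : Ω → ℕ → Prop)
    [∀ ω, DecidablePred (p ω)] (hp : ∀ n, Measurable fun ω => p ω n) (n : ℕ) :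
    ∀ c, Measurable fun ω => Nat.count (p ω) n = c := by
  induction n with
  | zero =>
    intro c
    simp only [Nat.count_zero]
    exact measurable_const
  | succ n ih =>
    intro c
    have h1 : (fun ω => Nat.count (p ω) (n + 1) = c) = fun ω =>
        (p ω n ∧ ∃ c', c = c' + 1 ∧ Nat.count (p ω) n = c') ∨
          (¬ p ω n ∧ Nat.count (p ω) n = c) := by
      funext ω
      rw [Nat.count_succ]
      by_cases h : p ω n
      · simp only [h, if_true, true_and, not_true, false_and, or_false, eq_iff_iff]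
        constructor
        · intro h2
          exact ⟨_, h2.symm, rfl⟩
        · rintro ⟨c', h2, h3⟩
          rw [h3, h2]
      · simp only [h, if_false, false_and, not_false_iff, true_and, false_or, add_zero]
    rw [h1]
    exact ((hp n).and (Measurable.exists fun c' => measurable_const.and (ih c'))).or
      ((hp n).not.and (ih c))

theorem meas_nth {Ω : Type} [MeasurableSpace Ω] (p : Ω → ℕ → Prop)
    (hp : ∀ n, Measurable fun ω => p ω n) (n y : ℕ) :
    Measurable fun ω => Nat.nth (p ω) n = y := by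
  classical
  have h1 : (fun ω => Nat.nth (p ω) n = y) = fun ω => (p ω y ∧ Nat.count (p ω) y = n) ∨
      (y = 0 ∧ ¬ ∃ m, p ω m ∧ Nat.count (p ω) m = n) := by
    funext ω
    exact propext (nth_iff _ _ _)
  rw [h1]
  exact ((hp y).and (meas_count p hp y n)).or
    (measurable_const.and (Measurable.exists fun m => (hp m).and (meas_count p hp m n)).not)

/-! ### Matching -/

/-- The name and the comparisons with the named elements agree. -/
def mt (R : R2) (O : Set ℕ) (W : R2) (v w : ℕ) : Prop :=
  (∀ k, (v = k ∧ v ∉ O) ↔ co W (2 * k + 1) w) ∧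
  ∀ k, k ∉ O → ∀ b, co W (2 * k + 1) b → (lt R k v ↔ lt W b w)

/-- The matching map. -/
noncomputable def ph (R : R2) (O : Set ℕ) (W : R2) : ℕ → ℕ := mat univ univ (mt R O W)

/-- The pull back of `W`. -/
noncomputable def plm (R : R2) (O : Set ℕ) (W : R2) : R2 :=
  mk (fun x y => lt W (ph R O W x) (ph R O W y)) (fun n x y => ac W n (ph R O W x) (ph R O W y))
    (fun n x => co W (2 * n) (ph R O W x))

theorem meas_mt (R : R2) (O : Set ℕ) (v w : ℕ) : Measurable fun W : R2 => mt R O W v w := by
  refine (Measurable.forall fun k => ?_).and (Measurable.forall fun k => ?_)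
  · exact measurable_const.iff (measurableSet_setOfPred.1 (meas_co _ _))
  · refine measurable_const.imp (Measurable.forall fun b => ?_)
    exact (measurableSet_setOfPred.1 (meas_co _ _)).imp
      (measurable_const.iff (measurableSet_setOfPred.1 (meas_lt _ _)))

theorem count_inst (p : ℕ → Prop) (d1 d2 : DecidablePred p) (x : ℕ) :
    @Nat.count p d1 x = @Nat.count p d2 x := by
  rw [Subsingleton.elim d1 d2]

theorem meas_ph (R : R2) (O : Set ℕ) (x y : ℕ) : Measurable fun W : R2 => ph R O W x = y := by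
  classical
  have h1 : (fun W : R2 => ph R O W x = y) = fun W : R2 => ∃ c,
      Nat.count (fun v => v ∈ univ ∧ ∃ w ∈ univ, mt R O W x w ∧ mt R O W v w) x = c ∧
      Nat.nth (fun w => w ∈ univ ∧ mt R O W x w) c = y := by
    funext W
    unfold ph mat
    apply propext
    constructor
    · intro h
      exact ⟨_, rfl, Eq.trans (congrArg (Nat.nth _) (count_inst _ _ _ _)) h⟩
    · rintro ⟨c, rfl, h⟩
      exact Eq.trans (congrArg (Nat.nth _) (count_inst _ _ _ _)) h
  rw [h1]
  refine Measurable.exists fun c => Measurable.and ?_ ?_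
  · refine meas_count (fun (W : R2) v => v ∈ univ ∧ ∃ w ∈ univ, mt R O W x w ∧ mt R O W v w)
      (fun v => ?_) x c
    refine measurable_const.and (Measurable.exists fun w => measurable_const.and ?_)
    exact (meas_mt R O x w).and (meas_mt R O v w)
  · exact meas_nth (fun (W : R2) w => w ∈ univ ∧ mt R O W x w)
      (fun w => measurable_const.and (meas_mt R O x w)) c y

theorem meas_plm (R : R2) (O : Set ℕ) : Measurable (plm R O) := by
  refine meas_into (fun x y => ?_) (fun n x y => ?_) (fun n x => ?_)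
  · have h1 : {W : R2 | lt (plm R O W) x y} = {W : R2 | ∃ a b, ph R O W x = a ∧
        ph R O W y = b ∧ lt W a b} := by
      ext W
      simp only [plm, lt_mk, mem_ofPred_eq]
      constructor
      · exact fun h => ⟨_, _, rfl, rfl, h⟩
      · rintro ⟨a, b, rfl, rfl, h⟩
        exact h
    rw [h1]
    refine measurableSet_setOfPred.2 (Measurable.exists fun a => Measurable.exists fun b => ?_)
    exact (meas_ph R O x a).and ((meas_ph R O y b).and
      (measurableSet_setOfPred.1 (meas_lt a b)))
  · have h1 : {W : R2 | ac (plm R O W) n x y} = {W : R2 | ∃ a b, ph R O W x = a ∧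
        ph R O W y = b ∧ ac W n a b} := by
      ext W
      simp only [plm, ac_mk, mem_ofPred_eq]
      constructor
      · exact fun h => ⟨_, _, rfl, rfl, h⟩
      · rintro ⟨a, b, rfl, rfl, h⟩
        exact h
    rw [h1]
    refine measurableSet_setOfPred.2 (Measurable.exists fun a => Measurable.exists fun b => ?_)
    exact (meas_ph R O x a).and ((meas_ph R O y b).and
      (measurableSet_setOfPred.1 (meas_ac n a b)))
  · have h1 : {W : R2 | co (plm R O W) n x} = {W : R2 | ∃ a, ph R O W x = a ∧
        co W (2 * n) a} := by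
      ext W
      simp only [plm, co_mk, mem_ofPred_eq]
      constructor
      · exact fun h => ⟨_, rfl, h⟩
      · rintro ⟨a, rfl, h⟩
        exact h
    rw [h1]
    refine measurableSet_setOfPred.2 (Measurable.exists fun a => ?_)
    exact (meas_ph R O x a).and (measurableSet_setOfPred.1 (meas_co (2 * n) a))

/-- The matching is a bijection if the structures are equivalent. -/
theorem ph_bij (hM : S_MAT) (R : R2) (O : Set ℕ) (W : R2)
    (hW : BF (lift (Nm O R)) (lift W) univ univ Ordinal.omega0 ∅) :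
    (∀ x, mt R O W x (ph R O W x)) ∧ Function.Bijective (ph R O W) := by
  have hd : ∀ v w v' w', mt R O W v w → mt R O W v' w → mt R O W v' w' → mt R O W v w' := by
    rintro v w v' w' ⟨a1, a2⟩ ⟨b1, b2⟩ ⟨c1, c2⟩
    refine ⟨fun k => ?_, fun k hk b hb => ?_⟩
    · rw [a1 k, ← b1 k, c1 k]
    · rw [a2 k hk b hb, ← b2 k hk b hb, c2 k hk b hb]
  have hq1 : ∀ (q : Set (ℕ × ℕ)) (x y : ℕ), (x, y) ∈ q →
      BF (lift (Nm O R)) (lift W) univ univ 1 q → mt R O W x y := by
    intro q x y hxy hq
    refine ⟨fun k => ?_, fun k hk b hb => ?_⟩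
    · rw [← piso_co (n := 2 * k + 1) hq.piso hxy]
      unfold Nm
      rw [co_ex_odd]
    · obtain ⟨x', -, hx'⟩ := hq.back zero_lt_one (mem_univ b)
      have hp := hx'.piso
      have h4 := (piso_co (n := 2 * k + 1) hp (mem_insert _ _)).2 hb
      unfold Nm at h4
      rw [co_ex_odd] at h4
      obtain ⟨rfl, -⟩ := h4
      have h5 := piso_lt hp (mem_insert _ _) (mem_insert_of_mem _ hxy)
      unfold Nm at h5
      rwa [lt_ex] at h5
  obtain ⟨h1, h2, h3⟩ := hM (Nm O R) W univ univ (mt R O W) hd hW hq1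
  refine ⟨fun x => (h1 x trivial).2, injOn_univ.1 h2, fun y => ?_⟩
  obtain ⟨x, -, hx⟩ := h3 y trivial
  exact ⟨x, hx⟩

/-- PL -/
theorem t_PL (hM : S_MAT) (hB : S_MBF) (hT : S_TRQ) : S_PL := by
  intro Γ _ g hg R O hR hinv
  refine ⟨plm R O, meas_plm R O, fun W hW => ?_⟩
  obtain ⟨hm, hb⟩ := ph_bij hM R O W hW
  have hiso : RIso (Nm O (plm R O W)) W := by
    refine riso_iff.2 ⟨Equiv.ofBijective _ hb, fun x y => ?_, fun n x y => ?_, fun n x => ?_⟩
    · unfold Nm plm
      rw [lt_ex, lt_mk]
      rfl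
    · unfold Nm plm
      rw [ac_ex, ac_mk]
      rfl
    · obtain ⟨k, rfl | rfl⟩ : ∃ k, n = 2 * k ∨ n = 2 * k + 1 := ⟨n / 2, by omega⟩
      · unfold Nm plm
        rw [co_ex_even, co_mk]
        rfl
      · unfold Nm
        rw [co_ex_odd]
        exact ((hm x).1 k).symm
  refine ⟨hiso, ?_⟩
  have h1 : BF (lift (Nm O R)) (lift (Nm O (plm R O W))) univ univ Ordinal.omega0 ∅ :=
    bf_trans0 hW (bf_symm0 ((riso_isoOn.1 hiso).bf _))
  have h2 : BF (lift R) (lift (plm R O W)) univ univ Ordinal.omega0 (idOn Oᶜ) :=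
    (hT.2.2.2.2.2.1 R (plm R O W) O Ordinal.omega0 le_rfl).1 h1
  have h3 : MB g ⊤ (plm R O W) := hB Γ g hg R _ hR (h2.subset (empty_subset _))
  have hp := h2.piso
  have hid : ∀ {x : ℕ}, x ∉ O → (x, x) ∈ idOn Oᶜ := fun hx => ⟨rfl, hx⟩
  obtain ⟨t, ht, -⟩ := MB.la hR
  obtain ⟨t', ht', -⟩ := MB.la h3
  have hlt : ∀ x y, x ∉ O → (lt (plm R O W) x y ↔ lt R x y) := by
    intro x y hx
    have h4 := (hm y).2 x hx (ph R O W x) (((hm x).1 x).1 ⟨rfl, hx⟩)
    rw [h4]
    unfold plm
    rw [lt_mk]
  have hac : ∀ n x y, x ∉ O → (ac (plm R O W) n x y ↔ ac R n x y) := by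
    intro n x y hx
    by_cases hy : y ∈ O
    · have h4 : ¬ ac R n x y := fun h => hx ((hinv n x y h).2 hy)
      refine ⟨fun h => ?_, fun h => absurd h h4⟩
      exfalso
      have h5 : ac R n x (t (g n) x) := (la_ac ht _ _ _).2 rfl
      have h6 : t (g n) x ∉ O := fun h7 => hx ((hinv n x _ h5).2 h7)
      have h7 := (piso_ac hp (hid hx) (hid h6)).1 h5
      rw [la_ac ht'] at h h7
      rw [← h7, h] at h6
      exact h6 hy
    · exact (piso_ac hp (hid hx) (hid hy)).symm
  refine ⟨fun x y hxy => ?_, fun n x y hxy => ?_, fun n x hx => (piso_co hp (hid hx)).symm⟩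
  · by_cases hx : x ∈ O
    · have hy : y ∉ O := fun hy => hxy ⟨hx, hy⟩
      have hne : x ≠ y := fun h => hy (h ▸ hx)
      have h4 := hlt y x hy
      constructor
      · intro h5
        rcases ht.tot x y hne with h6 | h6
        · exact h6
        · exact absurd (h4.2 h6) (la_asymm ht' h5)
      · intro h5
        rcases ht'.tot x y hne with h6 | h6
        · exact h6
        · exact absurd (h4.1 h6) (la_asymm ht h5)
    · exact hlt x y hx
  · by_cases hx : x ∈ O
    · have hy : y ∉ O := fun hy => hxy ⟨hx, hy⟩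
      obtain ⟨m, hmg⟩ := hg (g n)⁻¹
      constructor
      · intro h5
        exfalso
        rw [la_ac ht'] at h5
        have h6 : ac (plm R O W) m y x := by
          rw [la_ac ht', hmg, ← h5, la_inv ht']
        exact hy ((hinv m y x ((hac m y x hy).1 h6)).2 hx)
      · intro h5
        exact absurd ((hinv n x y h5).1 hx) hy
    · exact hac n x y hx

end Pool.Agent.Y560.TG.PL
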