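import Pool.Agent.Y560.TG.Stm
import Pool.Agent.Y560.TT.Fin5

/-!
Project TG: one-ended structures, by the tower theorem.
-/

set_option autoImplicit false

namespace Pool.Agent.Y560.TG

open Set MeasureTheory
open Pool.Agent.H899R2.VP (St Adj PIso BF IsoOn idOn inv comp zipSet)
open Pool.Agent.H533R2.VO (RS lift put OS Ic RIso Dich VC BlkV S_FINAL)
open Pool.Agent.H566P (ar R2 v2 a0 a1 lt ac co mk LA LL MB lab sh prec pull S_ACC S_MSG)
open Pool.Agent.Y560.TT (Pre SegIso tower_gen add_nat_lt)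

/-- expansion by `Lr` -/
noncomputable def xp (β : Ordinal.{0}) (Y : R2) : R2 :=
  mk (lt Y) (fun n a b => if n = 0 then Lr β Y a b else ac Y (n - 1) a b) (co Y)

/-- reduct -/
noncomputable def dn (S : R2) : R2 := mk (lt S) (fun n a b => ac S (n + 1) a b) (co S)

theorem lt_xp (β Y x y) : lt (xp β Y) x y ↔ lt Y x y := lt_mk _ _ _ _ _
theorem ac_xp0 (β Y x y) : ac (xp β Y) 0 x y ↔ Lr β Y x y := by
  unfold xp; rw [ac_mk]; simp
theorem ac_xp1 (β Y n x y) : ac (xp β Y) (n + 1) x y ↔ ac Y n x y := by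
  unfold xp; rw [ac_mk]; simp
theorem co_xp (β Y n x) : co (xp β Y) n x ↔ co Y n x := co_mk _ _ _ _ _
theorem lt_dn (S x y) : lt (dn S) x y ↔ lt S x y := lt_mk _ _ _ _ _
theorem ac_dn (S n x y) : ac (dn S) n x y ↔ ac S (n + 1) x y := ac_mk _ _ _ _ _ _
theorem co_dn (S n x) : co (dn S) n x ↔ co S n x := co_mk _ _ _ _ _

theorem dn_xp (β : Ordinal.{0}) (Y : R2) : dn (xp β Y) = Y :=
  R2_ext (fun x y => by rw [lt_dn, lt_xp]) (fun n x y => by rw [ac_dn, ac_xp1])
    (fun n x => by rw [co_dn, co_xp])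

theorem xp_eq_iff (β : Ordinal.{0}) (S : R2) :
    xp β (dn S) = S ↔ ∀ x y, Lr β (dn S) x y ↔ ac S 0 x y := by
  constructor
  · intro h x y
    rw [← ac_xp0, h]
  · intro h
    refine R2_ext (fun x y => by rw [lt_xp, lt_dn]) (fun n x y => ?_)
      (fun n x => by rw [co_xp, co_dn])
    cases n with
    | zero => rw [ac_xp0, h]
    | succ n => rw [ac_xp1, ac_dn]

theorem cont_dn : Continuous dn := by
  have hc : ∀ (i : ℕ) (v : Fin (ar i) → ℕ), IsClopen {M : R2 | M i v = true} := by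
    intro i v
    have h1 : Continuous (fun M : R2 => M i v) := (continuous_apply v).comp (continuous_apply i)
    exact (isClopen_discrete ({true} : Set Bool)).preimage h1
  refine cont_into (fun x y => ?_) (fun n x y => ?_) (fun n x => ?_)
  · simp only [lt_dn]; exact hc 0 (v2 0 x y)
  · simp only [ac_dn]; exact hc _ _
  · simp only [co_dn]; exact hc _ _

theorem meas_dn : Measurable dn := cont_dn.measurable

theorem meas_cls (R : R2) (γ : Ordinal.{0}) (hγ : γ < Ordinal.omega 1) (q : Set (ℕ × ℕ)) :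
    MeasurableSet {Y : R2 | BF (lift R) (lift Y) univ univ γ q} := by
  have hlift : Measurable (lift : R2 → St ar) := measurable_const.prodMk measurable_id
  exact msg ar (lift R) univ R2 lift (fun _ => univ) hlift (fun z => by simp) γ hγ q

/-- the graph of an isomorphism -/
theorem graph_iso {Y Y' : R2} {σ : Equiv.Perm ℕ} (h1 : ∀ x y, lt Y' (σ x) (σ y) ↔ lt Y x y)
    (h2 : ∀ n x y, ac Y' n (σ x) (σ y) ↔ ac Y n x y) (h3 : ∀ n x, co Y' n (σ x) ↔ co Y n x) :
    IsoOn (lift Y) (lift Y') univ univ {w | w.2 = σ w.1} := by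
  refine ⟨{w | w.2 = σ w.1}, subset_rfl, fun _ _ => ⟨trivial, trivial⟩, piso_iff.2 ⟨?_, ?_, ?_, ?_⟩,
    fun x _ => ⟨σ x, rfl⟩, fun y _ => ⟨σ.symm y, by simp⟩⟩
  · rintro ⟨u, u'⟩ hu ⟨v, v'⟩ hv
    simp only [Set.mem_ofPred_eq] at hu hv
    subst hu hv
    exact σ.injective.eq_iff.symm
  · rintro ⟨u, u'⟩ hu ⟨v, v'⟩ hv
    simp only [Set.mem_ofPred_eq] at hu hv
    subst hu hv
    exact (h1 _ _).symm
  · rintro n ⟨u, u'⟩ hu ⟨v, v'⟩ hv
    simp only [Set.mem_ofPred_eq] at hu hv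
    subst hu hv
    exact (h2 _ _ _).symm
  · rintro n ⟨u, u'⟩ hu
    simp only [Set.mem_ofPred_eq] at hu
    subst hu
    exact (h3 _ _).symm

theorem abs_mul {β : Ordinal.{0}} (hβ : Ordinal.omega0 ≤ β) (n : ℕ) :
    β + (n : Ordinal.{0}) + β * Ordinal.omega0 = β * Ordinal.omega0 := by
  have h1 : (n : Ordinal.{0}) + β * Ordinal.omega0 = β * Ordinal.omega0 := by
    apply Ordinal.add_eq_right_iff_mul_omega0_le.2
    calc (n : Ordinal.{0}) * Ordinal.omega0 ≤ Ordinal.omega0 := by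
          rcases Nat.eq_zero_or_pos n with rfl | hn
          · simp
          · rw [Ordinal.natCast_mul_omega0 hn]
      _ ≤ β * Ordinal.omega0 := hβ.trans (Ordinal.le_mul_left β Ordinal.omega0_pos)
  rw [add_assoc, h1]
  apply Ordinal.add_eq_right_iff_mul_omega0_le.2
  exact le_rfl

/-- relations of `R2`-structures under a map which preserves the atomic facts -/
theorem rel_map {α : Type} {S S' : R2} (f f' : α → ℕ) (h0 : ∀ a b, f a = f b ↔ f' a = f' b)
    (h1 : ∀ a b, lt S' (f' a) (f' b) ↔ lt S (f a) (f b))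
    (h2 : ∀ n a b, ac S' n (f' a) (f' b) ↔ ac S n (f a) (f b))
    (h3 : ∀ n a, co S' n (f' a) ↔ co S n (f a)) (i : ℕ) (v : Fin (ar i) → α) :
    S' i (fun k => f' (v k)) = S i fun k => f (v k) := by
  have hp : PIso (lift S) (lift S') {u | ∃ a, u = (f a, f' a)} := by
    refine piso_iff.2 ⟨?_, ?_, ?_, ?_⟩
    · rintro _ ⟨a, rfl⟩ _ ⟨b, rfl⟩; exact h0 a b
    · rintro _ ⟨a, rfl⟩ _ ⟨b, rfl⟩; exact (h1 a b).symm
    · rintro n _ ⟨a, rfl⟩ _ ⟨b, rfl⟩; exact (h2 n a b).symm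
    · rintro n _ ⟨a, rfl⟩; exact (h3 n a).symm
  exact (hp.2.2 i (fun k => (f (v k), f' (v k))) fun k => ⟨v k, rfl⟩).symm

/-- atomic facts from equality of the relations -/
theorem map_rel {α : Type} {S S' : R2} (f f' : α → ℕ)
    (h : ∀ (i : ℕ) (v : Fin (ar i) → α), S' i (fun k => f' (v k)) = S i fun k => f (v k)) :
    (∀ a b, lt S' (f' a) (f' b) ↔ lt S (f a) (f b)) ∧
    (∀ n a b, ac S' n (f' a) (f' b) ↔ ac S n (f a) (f b)) ∧
    ∀ n a, co S' n (f' a) ↔ co S n (f a) := by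
  have e : ∀ (i : ℕ) (a b : α) (F : α → ℕ),
      v2 i (F a) (F b) = fun k => F ((fun k : Fin (ar i) => if k.1 = 0 then a else b) k) := by
    intro i a b F
    funext k
    unfold v2
    by_cases hk : k.1 = 0
    · simp [hk]
    · simp [hk]
  refine ⟨fun a b => ?_, fun n a b => ?_, fun n a => ?_⟩
  · unfold lt
    rw [e 0 a b f, e 0 a b f', h]
  · unfold ac
    rw [e _ a b f, e _ a b f', h]
  · unfold co
    rw [e _ a a f, e _ a a f', h]

section main

variable {Γ : Type} [Group Γ] {g : ℕ → Γ} {R : R2} {β : Ordinal.{0}}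

/-- isomorphisms preserve `Bg` and `Lr` -/
theorem iso_BgLr (hET : S_OET) (hg : Function.Surjective g) {Y Y' : R2} (hY : MB g ⊤ Y)
    (hβ : Ordinal.omega0 ≤ β) (hO : OneEnd β Y) {σ : Equiv.Perm ℕ}
    (h1 : ∀ x y, lt Y' (σ x) (σ y) ↔ lt Y x y)
    (h2 : ∀ n x y, ac Y' n (σ x) (σ y) ↔ ac Y n x y) (h3 : ∀ n x, co Y' n (σ x) ↔ co Y n x) :
    (∀ y z, Bg β Y' (σ y) (σ z) ↔ Bg β Y y z) ∧ ∀ y z, Lr β Y' (σ y) (σ z) ↔ Lr β Y y z := by
  have h4 := graph_iso h1 h2 h3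
  obtain ⟨h5, h6, -, -⟩ := hET Γ g hg Y Y' β hY hβ hO
  exact ⟨fun y z => (h5 _ y z (σ y) (σ z) (h4.bf β) rfl rfl).symm,
    fun y z => (h6 _ y z (σ y) (σ z) (h4.bf _) rfl rfl).symm⟩

theorem t_OE (hB : S_MBF) (hL : S_LABQ) (hE : S_OEB) (hET : S_OET) (hM : S_OEM) (hS : S_OES)
    (hW : S_EXTW) (hX : S_HEXT) : S_OE := by
  classical
  intro Γ _ g hg R β hR hβ hβ1 hfew hOE
  obtain ⟨γ, hγ⟩ : ∃ γ, γ = β * Ordinal.omega0 := ⟨_, rfl⟩
  rw [← hγ] at hfew ⊢
  have habs : ∀ n : ℕ, β + (n : Ordinal.{0}) + γ = γ := by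
    intro n; rw [hγ]; exact abs_mul hβ n
  have hγ1 : γ < Ordinal.omega 1 := by
    rw [hγ]; exact Ordinal.isPrincipal_mul_omega 1 hβ1 Ordinal.omega0_lt_omega_one
  have hγs : γ + 1 < Ordinal.omega 1 := by simpa using add_nat_lt hγ1 1
  have hβγ : β + 3 ≤ γ := by
    have h3 := habs 3
    rw [← h3]
    exact_mod_cast le_self_add
  have hωγ : Ordinal.omega0 ≤ γ := hβ.trans ((le_self_add).trans hβγ)
  -- the class
  set K : Set R2 := {Y | BF (lift R) (lift Y) univ univ (γ + 1) ∅} with hK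
  have hKm : MeasurableSet K := meas_cls R _ hγs ∅
  have hKi : ∀ Y Y' : R2, RIso Y Y' → Y ∈ K → Y' ∈ K := fun Y Y' h h' =>
    bf_trans0 h' ((riso_isoOn.1 h).bf _)
  have hKMB : ∀ Y ∈ K, MB g ⊤ Y := fun Y hY => hB Γ g hg R Y hR
    (BF.mono hY (hωγ.trans le_self_add))
  have hKOE : ∀ Y ∈ K, OneEnd β Y := fun Y hY => (hET Γ g hg R Y β hR hβ hOE).2.2.1
    (BF.mono hY (hβγ.trans le_self_add))
  obtain ⟨hm1, hm2⟩ := hM Γ g hg R β (γ + 1) hR hβ (hβγ.trans le_self_add) hγs hOE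
  have hRK : R ∈ K := (BF.refl (lift R) univ (γ + 1)).subset (empty_subset _)
  -- isomorphisms
  have hxi : ∀ Y ∈ K, ∀ Y' : R2, RIso Y Y' → RIso (xp β Y) (xp β Y') := by
    intro Y hY Y' h
    obtain ⟨σ, h1, h2, h3⟩ := riso_iff.1 h
    obtain ⟨-, h5⟩ := iso_BgLr hET hg (hKMB Y hY) hβ (hKOE Y hY) h1 h2 h3
    refine riso_iff.2 ⟨σ, fun x y => by rw [lt_xp, lt_xp, h1], fun n x y => ?_,
      fun n x => by rw [co_xp, co_xp, h3]⟩
    cases n with
    | zero => rw [ac_xp0, ac_xp0, h5]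
    | succ n => rw [ac_xp1, ac_xp1, h2]
  have hdi : ∀ S S' : R2, RIso S S' → RIso (dn S) (dn S') := by
    intro S S' h
    obtain ⟨σ, h1, h2, h3⟩ := riso_iff.1 h
    exact riso_iff.2 ⟨σ, fun x y => by rw [lt_dn, lt_dn, h1],
      fun n x y => by rw [ac_dn, ac_dn, h2], fun n x => by rw [co_dn, co_dn, h3]⟩
  -- the class of expansions
  set B : Set R2 := {S | dn S ∈ K ∧ xp β (dn S) = S} with hBdef
  have hBm : MeasurableSet B := by
    have e : B = (dn ⁻¹' K) ∩ ⋂ x : ℕ, ⋂ y : ℕ,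
        ((dn ⁻¹' {Y : R2 | BF (lift R) (lift Y) univ univ (γ + 1) ∅ ∧ Lr β Y x y}) ∩
          {S : R2 | ac S 0 x y}) ∪
        ((dn ⁻¹' {Y : R2 | BF (lift R) (lift Y) univ univ (γ + 1) ∅ ∧ Lr β Y x y})ᶜ ∩
          {S : R2 | ac S 0 x y}ᶜ) := by
      ext S
      simp only [hBdef, mem_ofPred_eq, mem_inter_iff, mem_preimage, mem_iInter, mem_union,
        mem_compl_iff, xp_eq_iff]
      constructor
      · rintro ⟨h1, h2⟩
        refine ⟨h1, fun x y => ?_⟩
        by_cases h3 : ac S 0 x y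
        · exact Or.inl ⟨⟨h1, (h2 x y).2 h3⟩, h3⟩
        · exact Or.inr ⟨fun h4 => h3 ((h2 x y).1 h4.2), h3⟩
      · rintro ⟨h1, h2⟩
        refine ⟨h1, fun x y => ?_⟩
        rcases h2 x y with h3 | h3
        · exact ⟨fun _ => h3.2, fun _ => h3.1.2⟩
        · exact ⟨fun h4 => absurd ⟨h1, h4⟩ h3.1, fun h4 => absurd h4 h3.2⟩
    rw [e]
    refine (meas_dn hKm).inter (MeasurableSet.iInter fun x => MeasurableSet.iInter fun y => ?_)
    exact ((meas_dn (hm2 x y)).inter (meas_ac 0 x y)).union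
      ((meas_dn (hm2 x y)).compl.inter (meas_ac 0 x y).compl)
  have hBi1 : ∀ S S' : R2, RIso S S' → S ∈ B → S' ∈ B := by
    rintro S S' h ⟨h1, h2⟩
    refine ⟨hKi _ _ (hdi _ _ h) h1, ?_⟩
    obtain ⟨σ, e1, e2, e3⟩ := riso_iff.1 h
    obtain ⟨-, h5⟩ := iso_BgLr hET hg (Y := dn S) (Y' := dn S') (hKMB _ h1) hβ (hKOE _ h1)
      (σ := σ) (fun x y => by rw [lt_dn, lt_dn, e1])
      (fun n x y => by rw [ac_dn, ac_dn, e2]) (fun n x => by rw [co_dn, co_dn, e3])
    rw [xp_eq_iff] at h2 ⊢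
    intro x y
    obtain ⟨x, rfl⟩ := σ.surjective x
    obtain ⟨y, rfl⟩ := σ.surjective y
    rw [h5, h2, e2]
  have hBi : ∀ S S' : R2, RIso S S' → (S ∈ B ↔ S' ∈ B) := by
    intro S S' h
    refine ⟨hBi1 S S' h, hBi1 S' S ?_⟩
    exact riso_isoOn.2 (iso_symm0 (riso_isoOn.1 h))
  -- the preorder
  set D : R2 → ℕ → ℕ → Prop := fun S a b => ¬ Bg β (dn S) b a with hD
  have hPre : Pre B D := by
    refine ⟨fun m n => ?_, fun S hS' S' σ h m n => ?_, fun S hS' m n => ?_,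
      fun S hS' k m n h1 h2 => ?_⟩
    · have e : {S | S ∈ B ∧ D S m n} = B ∩
          (dn ⁻¹' {Y : R2 | BF (lift R) (lift Y) univ univ (γ + 1) ∅ ∧ Bg β Y n m})ᶜ := by
        ext S
        simp only [hD, mem_ofPred_eq, mem_inter_iff, mem_compl_iff, mem_preimage]
        constructor
        · rintro ⟨h1, h2⟩
          exact ⟨h1, fun h3 => h2 h3.2⟩
        · rintro ⟨h1, h2⟩
          exact ⟨h1, fun h3 => h2 ⟨h1.1, h3⟩⟩
      rw [e]
      exact hBm.inter (meas_dn (hm1 n m)).compl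
    · obtain ⟨e1, e2, e3⟩ := map_rel (α := ℕ) (S := S) (S' := S') id σ h
      obtain ⟨h5, -⟩ := iso_BgLr hET hg (Y := dn S) (Y' := dn S') (hKMB _ hS'.1) hβ
        (hKOE _ hS'.1) (σ := σ) (fun x y => by rw [lt_dn, lt_dn]; exact e1 x y)
        (fun n x y => by rw [ac_dn, ac_dn]; exact e2 _ x y)
        (fun n x => by rw [co_dn, co_dn]; exact e3 n x)
      simp only [hD]
      rw [h5]
    · simp only [hD]
      by_contra hcon
      push Not at hcon
      have h3 := (hKOE _ hS'.1).tr _ _ _ hcon.1 hcon.2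
      obtain ⟨t, ht, -⟩ := hKMB _ hS'.1
      obtain ⟨k, hk⟩ := hg 1
      exact h3.1 ⟨k, (la_ac ht _ _ _).2 (by rw [hk, ht.one])⟩
    · simp only [hD] at h1 h2 ⊢
      intro h3
      rcases (hE Γ g hg (dn S) β (hKMB _ hS'.1) hβ (hKOE _ hS'.1)).1 n m k h3 with h4 | h4
      · exact h2 h4
      · exact h1 h4
  have hDich := tower_gen ar B hBm hBi D hPre ?_ ?_
  · rcases hDich with ⟨f, hf⟩ | ⟨c, hc1, hc2, hc3⟩
    · refine ⟨fun n => dn (f n), fun V hV => ?_⟩
      have h1 : xp β V ∈ B := by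
        refine ⟨?_, ?_⟩
        · rw [dn_xp]; exact hV
        · rw [dn_xp]
      obtain ⟨n, hn⟩ := hf _ h1
      have h2 := hdi _ _ hn
      rw [dn_xp] at h2
      exact ⟨n, h2⟩
    · exfalso
      refine hfew ⟨fun A => dn (c A), cont_dn.comp hc1, fun A => BF.mono (hc2 A).1 le_self_add,
        fun A A' h => hc3 A A' ?_⟩
      have h1 := hxi _ (hc2 A).1 _ h
      rwa [(hc2 A).2, (hc2 A').2] at h1
  · -- countably many segments
    obtain ⟨Λ, hΛ⟩ := hL Γ g hg R γ hR hωγ hγ1 hfew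
    have hsm : ∀ y, Sm γ (ex (PA β R y) R) (Sp β R y) := fun y =>
      (hS Γ g hg R β γ hR hβ hβγ hγ1 hfew hOE y).2.2
    choose F hF using hsm
    let P : ℕ × ℕ × ℕ → R2 → ℕ → Prop := fun ι S m => S ∈ B ∧
      BF (lift R) (lift (dn S)) univ univ γ {(ι.1, m)} ∧
      IsoOn (lift (F ι.1 ι.2.1).1) (lift (ex (PA β (dn S) m) (dn S))) (F ι.1 ι.2.1).2
        (Sp β (dn S) m) ∅ ∧ ∃ w, Bg β (dn S) m w ∧ ∀ k, Q (dn S) m k w ↔ Λ ι.2.2 k
    have hPex : ∀ S ∈ B, ∀ m, ∃ ι, P ι S m := by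
      intro S hS' m
      have hY : BF (lift R) (lift (dn S)) univ univ (γ + 1) ∅ := hS'.1
      obtain ⟨y0, -, h1⟩ := hY.back (lt_add_one γ) (mem_univ m)
      have h1' : BF (lift R) (lift (dn S)) univ univ γ {(y0, m)} := h1.subset (by simp)
      have h2 := (hET Γ g hg R (dn S) β hR hβ hOE).2.2.2 {(y0, m)} y0 m γ
        (by
          have h3 := habs 1
          rw [Nat.cast_one] at h3
          rw [h3]
          exact h1') rfl
      obtain ⟨n, hn⟩ := hF y0 _ _ h2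
      obtain ⟨w, hw⟩ := (hKOE _ hS'.1).ex m
      obtain ⟨i, hi⟩ := hΛ (dn S) (hY.mono le_self_add) m w
      exact ⟨(y0, n, i), hS', h1', hn, w, hw, hi⟩
    have hPP : ∀ ι S m S' m', P ι S m → P ι S' m' →
        ∃ φ : {k // D S k m} ≃ {k // D S' k m'}, SegIso D S m S' m' φ := by
      rintro ι S m S' m' ⟨h1, h2, h3, w, h4, h5⟩ ⟨h1', h2', h3', w', h4', h5'⟩
      obtain ⟨φ, e1, e2, e3, e4, e5⟩ := hW Γ g hg (dn S) (dn S') β m m' w w' (hKMB _ h1.1)
        (hKMB _ h1'.1) hβ (hKOE _ h1.1) (hKOE _ h1'.1)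
        (((h2.symm.comp h2').mono ((Ordinal.natCast_lt_omega0 2).le.trans hωγ)).subset (by
          rintro _ rfl
          exact ⟨ι.1, rfl, rfl⟩)) (iso_trans0 (iso_symm0 h3) h3') h4 h4'
        (fun k => (h5 k).trans (h5' k).symm)
      have l1 := (xp_eq_iff _ _).1 h1.2
      have l2 := (xp_eq_iff _ _).1 h1'.2
      simp only [lt_dn] at e1
      simp only [ac_dn] at e2
      simp only [co_dn] at e3
      refine ⟨φ, ⟨fun i v => ?_, fun p q => ?_⟩⟩
      · refine rel_map (α := {k // D S k m}) (S := S) (S' := S') (fun a => (a : ℕ))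
          (fun a => (φ a : ℕ)) (fun a b => ?_) e1 (fun n a b => ?_) e3 i v
        · constructor
          · intro h
            rw [Subtype.ext h]
          · intro h
            exact congrArg Subtype.val (φ.injective (Subtype.ext h))
        · cases n with
          | zero => rw [← l1, ← l2]; exact e5 a b
          | succ n => exact e2 n a b
      · exact not_congr (e4 q p)
    have hch : ∀ ι, ∃ p : R2 × ℕ, p.1 ∈ B ∧ ((∃ S m, P ι S m) → P ι p.1 p.2) := by
      intro ι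
      by_cases h : ∃ S m, P ι S m
      · obtain ⟨S, m, h1⟩ := h
        exact ⟨(S, m), h1.1, fun _ => h1⟩
      · refine ⟨(xp β R, 0), ⟨?_, ?_⟩, fun h' => absurd h' h⟩
        · rw [dn_xp]; exact hRK
        · rw [dn_xp]
    choose p hp1 hp2 using hch
    obtain ⟨e, he⟩ : ∃ e : ℕ → ℕ × ℕ × ℕ, Function.Surjective e := exists_surjective_nat _
    refine ⟨fun n => p (e n), fun n => hp1 _, fun x hx m => ?_⟩
    obtain ⟨ι, hι⟩ := hPex x hx m
    obtain ⟨n, rfl⟩ := he ι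
    exact ⟨n, hPP _ _ _ x m (hp2 _ ⟨x, m, hι⟩) hι⟩
  · -- extension of automorphisms
    intro x hx m
    have hirr : ∀ S ∈ B, ∀ m, D S m m := by
      intro S hS' m h3
      obtain ⟨t, ht, -⟩ := hKMB _ hS'.1
      obtain ⟨k, hk⟩ := hg 1
      exact h3.1 ⟨k, (la_ac ht _ _ _).2 (by rw [hk, ht.one])⟩
    refine ⟨{m}, finite_singleton m, ?_, ?_⟩
    · intro c hc
      rw [mem_singleton_iff.1 hc]
      exact hirr x hx m
    · intro y hy n φ hφ ψ hψ hfix
      set e : {k // D y k n} := φ ⟨m, hirr x hx m⟩ with he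
      have hψe : ψ e = e := hfix ⟨m, hirr x hx m⟩ rfl
      have hseg : ∀ k, D y k n ↔ D y k e := by
        intro k
        constructor
        · intro h1
          obtain ⟨p, hp⟩ := φ.surjective ⟨k, h1⟩
          have h2 := (hφ.2 p ⟨m, hirr x hx m⟩).2 p.2
          rw [hp] at h2
          exact h2
        · exact fun h1 => hPre.trans y hy _ _ _ h1 e.2
      let E : {k // D y k n} ≃ {k // ¬ Bg β (dn y) e k} := Equiv.subtypeEquivRight hseg
      have l1 := (xp_eq_iff _ _).1 hy.2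
      obtain ⟨f1, f2, f3⟩ := map_rel (α := {k // D y k n}) (S := y) (S' := y)
        (fun a => (a : ℕ)) (fun a => (ψ a : ℕ)) hψ.1
      have hEs : ∀ a : {k // ¬ Bg β (dn y) e k}, ((E.symm a : {k // D y k n}) : ℕ) = a :=
        fun a => rfl
      obtain ⟨σ, g1, g2, g3, g4⟩ := hX Γ g hg (dn y) β e (hKMB _ hy.1) hβ (hKOE _ hy.1)
        (E.symm.trans (ψ.trans E))
        (fun a b => by rw [lt_dn, lt_dn]; exact f1 (E.symm a) (E.symm b))
        (fun n a b => by rw [ac_dn, ac_dn]; exact f2 (n + 1) (E.symm a) (E.symm b))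
        (fun n a => by rw [co_dn, co_dn]; exact f3 n (E.symm a))
        (fun a b => by rw [l1, l1]; exact f2 0 (E.symm a) (E.symm b))
        (fun a ha => by
          have h1 : E.symm a = e := Subtype.ext ha
          show ((ψ (E.symm a) : {k // D y k n}) : ℕ) = e
          rw [h1, hψe])
      obtain ⟨-, h6⟩ := iso_BgLr hET hg (Y := dn y) (Y' := dn y) (hKMB _ hy.1) hβ
        (hKOE _ hy.1) (σ := σ) g1 g2 g3
      refine ⟨σ, fun i v => ?_, fun p => ?_⟩
      · simp only [lt_dn] at g1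
        simp only [ac_dn] at g2
        simp only [co_dn] at g3
        refine rel_map (α := ℕ) (S := y) (S' := y) id σ (fun a b => ?_) g1 (fun n a b => ?_) g3
          i v
        · exact (σ.injective.eq_iff).symm
        · cases n with
          | zero => rw [← l1, ← l1]; exact h6 a b
          | succ n => exact g2 n a b
      · exact g4 (E p)

end main

end Pool.Agent.Y560.TG
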