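import Pool.Agent.Y560.TG.Base

/-!
Project TG: statements of the steps.
-/

set_option autoImplicit false

namespace Pool.Agent.Y560.TG

open Set MeasureTheory
open Pool.Agent.H899R2.VP (St Adj PIso BF IsoOn idOn inv comp zipSet)
open Pool.Agent.H533R2.VO (RS lift put OS Ic RIso Dich VC BlkV S_FINAL)
open Pool.Agent.H566P (ar R2 v2 a0 a1 lt ac co mk LA LL MB lab sh prec pull S_ACC S_MSG)

/-! ### Back-and-forth basics -/

/-- MBF -/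
def S_MBF : Prop := ∀ (Γ : Type) [Group Γ] (g : ℕ → Γ), Function.Surjective g → ∀ R R' : R2,
  MB g ⊤ R → BF (lift R) (lift R') univ univ Ordinal.omega0 ∅ → MB g ⊤ R'

/-- EXT: transfer of back-and-forth equivalence to definable expansions and subsets -/
def S_EXT : Prop := ∀ (M M' N N' : R2) (X X' Y Y' : Set ℕ) (p r : Set (ℕ × ℕ))
  (k : Ordinal.{0}), Y ⊆ X → Y' ⊆ X' →
  (∀ q, p ⊆ q → BF (lift M) (lift M') X X' k q →
    PIso (lift N) (lift N') ({u | u ∈ q ∧ u.1 ∈ Y} ∪ r) ∧ ∀ u ∈ q, (u.1 ∈ Y ↔ u.2 ∈ Y')) →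
  ∀ o : Ordinal.{0}, BF (lift M) (lift M') X X' (k + o) p →
    BF (lift N) (lift N') Y Y' o ({u | u ∈ p ∧ u.1 ∈ Y} ∪ r)

/-- TRQ: labels, classes and names under back-and-forth equivalences and isomorphisms -/
def S_TRQ : Prop :=
  (∀ (R R' : R2) (q : Set (ℕ × ℕ)) (y y' v v' m : ℕ),
    BF (lift R) (lift R') univ univ 1 q → (y, y') ∈ q → (v, v') ∈ q →
    (Q R y m v ↔ Q R' y' m v')) ∧
  (∀ (R R' : R2) (q : Set (ℕ × ℕ)) (u u' v v' t t' : ℕ),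
    BF (lift R) (lift R') univ univ 3 q → (u, u') ∈ q → (v, v') ∈ q → (t, t') ∈ q →
    (t ∈ Ob R u v ↔ t' ∈ Ob R' u' v')) ∧
  (∀ (R R' : R2) (p : Set (ℕ × ℕ)) (u u' v v' : ℕ) (o : Ordinal.{0}), Ordinal.omega0 ≤ o →
    BF (lift R) (lift R') univ univ o p → (u, u') ∈ p → (v, v') ∈ p →
    BF (lift (lb R u)) (lift (lb R' u')) (Ob R u v) (Ob R' u' v') o
      {w | w ∈ p ∧ w.1 ∈ Ob R u v}) ∧
  (∀ (R R' : R2) (p : Set (ℕ × ℕ)) (u u' v v' : ℕ),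
    IsoOn (lift R) (lift R') univ univ p → (u, u') ∈ p → (v, v') ∈ p →
    IsoOn (lift (lb R u)) (lift (lb R' u')) (Ob R u v) (Ob R' u' v')
      {w | w ∈ p ∧ w.1 ∈ Ob R u v}) ∧
  (∀ (R R' : R2) (p : Set (ℕ × ℕ)) (u u' : ℕ) (o : Ordinal.{0}), Ordinal.omega0 ≤ o →
    BF (lift R) (lift R') univ univ o p → (u, u') ∈ p →
    BF (lift (lb R u)) (lift (lb R' u')) univ univ o p) ∧
  (∀ (R V : R2) (O : Set ℕ) (o : Ordinal.{0}), Ordinal.omega0 ≤ o →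
    (BF (lift (Nm O R)) (lift (Nm O V)) univ univ o ∅ ↔
      BF (lift R) (lift V) univ univ o (idOn Oᶜ))) ∧
  (∀ (R V : R2) (O : Set ℕ), (RIso (Nm O R) (Nm O V) ↔
      IsoOn (lift R) (lift V) univ univ (idOn Oᶜ)))

/-! ### Geometry -/

/-- GEO -/
def S_GEO : Prop := ∀ (Γ : Type) [Group Γ] (g : ℕ → Γ), Function.Surjective g → ∀ R : R2,
  MB g ⊤ R →
  (∀ u v, v ∈ Ob R u v) ∧
  (∀ u v x, x ∈ Ob R u v → Ob R u x = Ob R u v) ∧
  (∀ n u v x z, ac R n x z → (x ∈ Ob R u v ↔ z ∈ Ob R u v)) ∧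
  (∀ u v x w, x ∈ Ob R u v → w ∈ Ob R u v → sl R u x w → ∀ z, ¬ lt R z x → ¬ lt R w z →
    z ∈ Ob R u v) ∧
  (∀ u v, ∀ x ∈ Ob R u v, ∀ x' ∈ Ob R u v, sl R u x x' → ∀ w ∉ Ob R u v,
    (lt R x w ↔ lt R x' w) ∧ (lt R w x ↔ lt R w x')) ∧
  (∀ u v, ¬ orb R u v → Mod (Ob R u v) (Q R u) R) ∧
  (∀ y z x v, x ∈ Ob R y z → v ∈ Ob R y z → Ob R x v ⊆ Ob R y z) ∧
  (∀ y z x, x ∉ Ob R y z → Ob R y z ⊆ Ob R x z) ∧
  (∀ y z, (y ∈ Ob R y z ↔ orb R y z) ∧ (∀ v, orb R y v → Ob R y v = {w | orb R y w})) ∧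
  (∀ u v, (Ob R u v).Infinite) ∧
  (∀ y x z n x' z', ac R n x x' → ac R n z z' → (sl R y x z ↔ sl R y x' z')) ∧
  (∀ u v x, x ∈ Ob R u v → ∃ n x', ac R n v x' ∧ sl R u x x') ∧
  (∀ y v w, ¬ sl R y v w → (lt R v w ↔ ∃ k, (¬ Q R y (2 * k) v ∧ Q R y (2 * k) w) ∨
    (¬ Q R y (2 * k) v ∧ ¬ Q R y (2 * k + 1) v ∧ Q R y (2 * k + 1) w)))

/-! ### Gluing, matching, filling -/

/-- GL: gluing along the classes of `π` -/
def S_GL : Prop := ∀ (ι : Type) (π : ℕ → ι) (R V : R2) (M M' : ι → R2),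
  (∀ x y, π x ≠ π y → (lt V x y ↔ lt R x y)) →
  (∀ n x y, ac R n x y → π x = π y) → (∀ n x y, ac V n x y → π x = π y) →
  (∀ c q, (∀ u ∈ q, π u.1 = c ∧ π u.2 = c) → PIso (lift (M c)) (lift (M' c)) q →
    PIso (lift R) (lift V) q ∧ ∀ u ∈ q, ∀ w, π w ≠ c →
      (lt R u.1 w ↔ lt R u.2 w) ∧ (lt R w u.1 ↔ lt R w u.2)) →
  (∀ (o : Ordinal.{0}) (q : Set (ℕ × ℕ)), (∀ u ∈ q, π u.1 = π u.2) →
    (∀ c, BF (lift (M c)) (lift (M' c)) {x | π x = c} {x | π x = c} o {u | u ∈ q ∧ π u.1 = c}) →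
    BF (lift R) (lift V) univ univ o q) ∧
  (∀ q : Set (ℕ × ℕ), (∀ u ∈ q, π u.1 = π u.2) →
    (∀ c, IsoOn (lift (M c)) (lift (M' c)) {x | π x = c} {x | π x = c} {u | u ∈ q ∧ π u.1 = c}) →
    IsoOn (lift R) (lift V) univ univ q)

/-- The `i`-th element of its class is matched with the `i`-th element of the corresponding
class. -/
noncomputable def mat (X Y : Set ℕ) (mt : ℕ → ℕ → Prop) (x : ℕ) : ℕ :=
  letI := Classical.decPred fun v => v ∈ X ∧ ∃ w ∈ Y, mt x w ∧ mt v w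
  Nat.nth (fun w => w ∈ Y ∧ mt x w) (Nat.count (fun v => v ∈ X ∧ ∃ w ∈ Y, mt x w ∧ mt v w) x)

/-- MAT: matching -/
def S_MAT : Prop := ∀ (M M' : R2) (X Y : Set ℕ) (mt : ℕ → ℕ → Prop),
  (∀ v w v' w', mt v w → mt v' w → mt v' w' → mt v w') →
  BF (lift M) (lift M') X Y Ordinal.omega0 ∅ →
  (∀ q x y, (x, y) ∈ q → BF (lift M) (lift M') X Y 1 q → mt x y) →
  (∀ x ∈ X, mat X Y mt x ∈ Y ∧ mt x (mat X Y mt x)) ∧ InjOn (mat X Y mt) X ∧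
    ∀ y ∈ Y, ∃ x ∈ X, mat X Y mt x = y

/-- FILL: variations of a module in place -/
def S_FILL : Prop := ∀ (Γ : Type) [Group Γ] (g : ℕ → Γ), Function.Surjective g →
  ∀ (R T : R2) (O Y : Set ℕ) (P : ℕ → ℕ → Prop) (α : Ordinal.{0}), MB g ⊤ R → Mod O P R →
  Ordinal.omega0 ≤ α → BF (lift (ex P R)) (lift T) O Y α ∅ →
  ∃ V : R2, Off O R V ∧ BF (lift R) (lift V) univ univ α (idOn Oᶜ) ∧
    IsoOn (lift T) (lift (ex P V)) Y O ∅ ∧ BF (lift (ex P R)) (lift (ex P V)) O O α ∅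

/-- FILI: an isomorphism of variations of a module extends by the identity -/
def S_FILI : Prop := ∀ (R V V' : R2) (O : Set ℕ) (P : ℕ → ℕ → Prop), Mod O P R → Off O R V →
  Off O R V' → IsoOn (lift (ex P V)) (lift (ex P V')) O O ∅ →
  IsoOn (lift V) (lift V') univ univ (idOn Oᶜ)

/-- SI1: if the structure with all elements outside a module named is thin, then the module is
small -/
def S_SI1 : Prop := ∀ (Γ : Type) [Group Γ] (g : ℕ → Γ), Function.Surjective g →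
  ∀ (R : R2) (O : Set ℕ) (P : ℕ → ℕ → Prop) (β : Ordinal.{0}), MB g ⊤ R → Mod O P R →
  Ordinal.omega0 ≤ β → Thin β (Nm O R) → Sm β (ex P R) O

/-- OFF: facts on variations in place of a class -/
def S_OFF : Prop := ∀ (Γ : Type) [Group Γ] (g : ℕ → Γ), Function.Surjective g →
  ∀ (R V : R2) (O : Set ℕ), MB g ⊤ R → (∀ n x z, ac R n x z → (x ∈ O ↔ z ∈ O)) → Off O R V →
  (∀ y v m, y ∉ O → (Q V y m v ↔ Q R y m v)) ∧
  (BF (lift R) (lift V) univ univ Ordinal.omega0 (idOn Oᶜ) →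
    MB g ⊤ V ∧
    (∀ n x z, ac V n x z → (x ∈ O ↔ z ∈ O)) ∧
    (∀ y z, ¬ orb R y z → O = Ob R y z → ∀ e ∈ O, Ob V y e = O) ∧
    (∀ y z, y ∉ O → z ∉ O → Disjoint (Ob R y z) O → Ob V y z = Ob R y z) ∧
    (∀ y z, y ∉ O → O ⊆ Ob R y z → ∀ e ∈ Ob R y z, Ob V y e = Ob R y z))

/-- SUB: supersets of big classes are big (contrapositive) -/
def S_SUB : Prop := ∀ (Γ : Type) [Group Γ] (g : ℕ → Γ), Function.Surjective g →
  ∀ (R : R2) (y z u : ℕ) (D : Set ℕ) (β : Ordinal.{0}), MB g ⊤ R → Ordinal.omega0 ≤ β →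
  ¬ orb R y z → u ∉ Ob R y z → Ob R y z ⊆ D → Sm β (lb (Nm D R) u) (Ob R u z) →
  Sm β (lb R y) (Ob R y z)

/-- NSM: smallness in a structure with names -/
def S_NSM : Prop := ∀ (R : R2) (D X : Set ℕ) (y : ℕ) (β : Ordinal.{0}), Ordinal.omega0 ≤ β →
  (X ⊆ D → (Sm β (lb R y) X ↔ Sm β (lb (Nm D R) y) X)) ∧
  (Disjoint X D → Sm β (lb (Nm D R) y) X) ∧
  (∀ u v, Ob (Nm D R) u v = Ob R u v)

/-! ### Families of variations -/

/-- A family of variations `V s` of pairwise disjoint classes `Ob R (y k) (d k)`, `k = s / 2`. -/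
structure Fm {Γ : Type} [Group Γ] (g : ℕ → Γ) (α : Ordinal.{0}) (R : R2) (y d : ℕ → ℕ)
    (V : ℕ → R2) : Prop where
  mb : MB g ⊤ R
  om : Ordinal.omega0 ≤ α
  out : ∀ j k, y j ∉ Ob R (y k) (d k)
  dis : ∀ j k, j ≠ k → Disjoint (Ob R (y j) (d j)) (Ob R (y k) (d k))
  off : ∀ s, Off (Ob R (y (s / 2)) (d (s / 2))) R (V s)
  bf : ∀ s, BF (lift (lb R (y (s / 2)))) (lift (lb (V s) (y (s / 2))))
    (Ob R (y (s / 2)) (d (s / 2))) (Ob R (y (s / 2)) (d (s / 2))) α ∅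

open Classical in
/-- the number of the class of `x` -/
noncomputable def idx (R : R2) (y d : ℕ → ℕ) (x : ℕ) : Option ℕ :=
  if h : ∃ k, x ∈ Ob R (y k) (d k) then some h.choose else none

open Classical in
/-- the structure which is used in the class `k` -/
noncomputable def pick (R : R2) (V : ℕ → R2) (S : Set ℕ) : Option ℕ → R2
  | none => R
  | some k => if 2 * k + 1 ∈ S then V (2 * k + 1) else if 2 * k ∈ S then V (2 * k) else R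

/-- the structure `R` with the class `k` replaced by `V s`, for `s ∈ S`, `k = s / 2` -/
noncomputable def FX (R : R2) (y d : ℕ → ℕ) (V : ℕ → R2) (S : Set ℕ) : R2 :=
  mk (fun a b => if idx R y d a = idx R y d b then lt (pick R V S (idx R y d a)) a b
      else lt R a b)
    (fun n a b => if idx R y d a = idx R y d b then ac (pick R V S (idx R y d a)) n a b
      else ac R n a b)
    (fun n a => co (pick R V S (idx R y d a)) n a)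

/-- the set of numbers given by a sequence of bits -/
def Se (ε : ℕ → Bool) : Set ℕ := {s | ∃ k, s = 2 * k + (ε k).toNat}

/-- FAM1 -/
def S_FAM1 : Prop := ∀ (Γ : Type) [Group Γ] (g : ℕ → Γ), Function.Surjective g →
  ∀ (α : Ordinal.{0}) (R : R2) (y d : ℕ → ℕ) (V : ℕ → R2), Fm g α R y d V →
  (∀ S, BF (lift R) (lift (FX R y d V S)) univ univ α
    (idOn {x | ∀ k, x ∉ Ob R (y k) (d k)})) ∧
  (∀ S, MB g ⊤ (FX R y d V S)) ∧
  (∀ S k, Ob (FX R y d V S) (y k) (d k) = Ob R (y k) (d k)) ∧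
  (∀ S k, IsoOn (lift (lb (pick R V S (some k)) (y k))) (lift (lb (FX R y d V S) (y k)))
    (Ob R (y k) (d k)) (Ob R (y k) (d k)) (idOn (Ob R (y k) (d k)))) ∧
  FX R y d V ∅ = R ∧
  Continuous (fun ε : ℕ → Bool => FX R y d V (Se ε))

/-- FAM2: agreement outside the classes with numbers in `J` -/
def S_FAM2 : Prop := ∀ (Γ : Type) [Group Γ] (g : ℕ → Γ), Function.Surjective g →
  ∀ (α : Ordinal.{0}) (R : R2) (y d : ℕ → ℕ) (V : ℕ → R2), Fm g α R y d V →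
  ∀ (S S' J : Set ℕ), (∀ k ∉ J, pick R V S (some k) = pick R V S' (some k)) →
  ∀ u v, (∀ j ∈ J, v ∉ Ob R (y j) (d j)) →
  Ob (FX R y d V S) u v = Ob (FX R y d V S') u v ∧
  ((∀ j ∈ J, Disjoint (Ob (FX R y d V S) u v) (Ob R (y j) (d j))) →
    IsoOn (lift (lb (FX R y d V S) u)) (lift (lb (FX R y d V S') u))
      (Ob (FX R y d V S) u v) (Ob (FX R y d V S') u v) ∅)

/-- The types of the family are new. -/
def New (R : R2) (y d : ℕ → ℕ) (V : ℕ → R2) : Prop :=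
  ∀ (s : ℕ) (S : Set ℕ), (∀ s' ∈ S, s' < s) → ∀ u v,
    ¬ IsoOn (lift (lb (FX R y d V S) u)) (lift (lb (V s) (y (s / 2))))
      (Ob (FX R y d V S) u v) (Ob R (y (s / 2)) (d (s / 2))) ∅

/-- SEQ -/
def S_SEQ : Prop := ∀ (Γ : Type) [Group Γ] (g : ℕ → Γ), Function.Surjective g →
  ∀ (α : Ordinal.{0}) (R : R2) (y d : ℕ → ℕ), MB g ⊤ R → Ordinal.omega0 ≤ α →
  (∀ j k, y j ∉ Ob R (y k) (d k)) →
  (∀ j k, j ≠ k → Disjoint (Ob R (y j) (d j)) (Ob R (y k) (d k))) →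
  (∀ k, ¬ Sm α (lb R (y k)) (Ob R (y k) (d k))) →
  ∃ V : ℕ → R2, Fm g α R y d V ∧ New R y d V

/-- the big classes -/
def Bg (β : Ordinal.{0}) (R : R2) (y z : ℕ) : Prop := ¬ orb R y z ∧ ¬ Sm β (lb R y) (Ob R y z)

/-- C1: finitely many big classes over a point -/
def S_C1 : Prop := ∀ (Γ : Type) [Group Γ] (g : ℕ → Γ), Function.Surjective g →
  ∀ (α : Ordinal.{0}) (R : R2) (y : ℕ), MB g ⊤ R → Ordinal.omega0 ≤ α → α < Ordinal.omega 1 →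
  Few α R → ¬ ∃ d : ℕ → ℕ, (∀ k, Bg α R y (d k)) ∧ ∀ j k, j ≠ k → d j ∉ Ob R y (d k)

/-- C2: no combs -/
def S_C2 : Prop := ∀ (Γ : Type) [Group Γ] (g : ℕ → Γ), Function.Surjective g →
  ∀ (α : Ordinal.{0}) (R : R2), MB g ⊤ R → Ordinal.omega0 ≤ α → α < Ordinal.omega 1 →
  Few α R → ¬ ∃ y d : ℕ → ℕ, (∀ k, Bg α R (y k) (d k)) ∧
    (∀ k, ¬ orb R (y k) (y (k + 1))) ∧ (∀ k, d k ∉ Ob R (y k) (y (k + 1))) ∧
    (∀ k, d (k + 1) ∈ Ob R (y k) (y (k + 1))) ∧ ∀ k, y (k + 2) ∈ Ob R (y k) (y (k + 1))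

/-! ### Few structures -/

/-- BP: Borel families of pairwise non-isomorphic pointed structures -/
def S_BP : Prop := ∀ (K : Set R2), MeasurableSet K →
  (¬ ∃ c : (ℕ → Bool) → R2, Continuous c ∧ (∀ A, c A ∈ K) ∧
    ∀ A A', RIso (c A) (c A') → A = A') →
  ∀ (Ω : Type) [MeasurableSpace Ω] [StandardBorelSpace Ω], ¬ Countable Ω →
  ∀ (Φ : Ω → R2) (b : Ω → ℕ), Measurable Φ → Measurable b → (∀ ω, Φ ω ∈ K) →
  ¬ ∀ ω ω', IsoOn (lift (Φ ω)) (lift (Φ ω')) univ univ {(b ω, b ω')} → ω = ω'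

/-- PL: structures with names are variations in place, in a Borel way -/
def S_PL : Prop := ∀ (Γ : Type) [Group Γ] (g : ℕ → Γ), Function.Surjective g →
  ∀ (R : R2) (O : Set ℕ), MB g ⊤ R → (∀ n x z, ac R n x z → (x ∈ O ↔ z ∈ O)) →
  ∃ pl : R2 → R2, Measurable pl ∧ ∀ W : R2,
    BF (lift (Nm O R)) (lift W) univ univ Ordinal.omega0 ∅ →
    RIso (Nm O (pl W)) W ∧ Off O R (pl W)

/-- NFEW: fewness passes to the structure with names -/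
def S_NFEW : Prop := ∀ (Γ : Type) [Group Γ] (g : ℕ → Γ), Function.Surjective g →
  ∀ (R : R2) (O : Set ℕ) (y : ℕ) (β : Ordinal.{0}) (Bad : Set R2), MB g ⊤ R →
  (∀ n x z, ac R n x z → (x ∈ O ↔ z ∈ O)) → y ∉ O → Ordinal.omega0 ≤ β → β < Ordinal.omega 1 →
  Few β R →
  (∃ f : ℕ → R2, ∀ V ∈ Bad, ∃ n, IsoOn (lift (f n)) (lift V) univ univ (idOn Oᶜ)) →
  (∀ V V' : R2, V ∉ Bad → Off O R V → Off O R V' →
    BF (lift R) (lift V) univ univ β (idOn Oᶜ) → BF (lift R) (lift V') univ univ β (idOn Oᶜ) →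
    IsoOn (lift V) (lift V') univ univ {(y, y)} →
    IsoOn (lift V) (lift V') univ univ (idOn Oᶜ)) →
  Few β (Nm O R)

/-- K1: fewness passes to the structure with names outside a class -/
def S_K1 : Prop := ∀ (Γ : Type) [Group Γ] (g : ℕ → Γ), Function.Surjective g →
  ∀ (R : R2) (y z : ℕ) (β : Ordinal.{0}), MB g ⊤ R → ¬ orb R y z → Ordinal.omega0 ≤ β →
  β < Ordinal.omega 1 → Few β R → Few β (Nm (Ob R y z) R)

/-- LABQ: countably many labels -/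
def S_LABQ : Prop := ∀ (Γ : Type) [Group Γ] (g : ℕ → Γ), Function.Surjective g →
  ∀ (R : R2) (γ : Ordinal.{0}), MB g ⊤ R → Ordinal.omega0 ≤ γ → γ < Ordinal.omega 1 →
  Few γ R → ∃ Λ : ℕ → ℕ → Prop, ∀ Y : R2, BF (lift R) (lift Y) univ univ γ ∅ →
    ∀ y z, ∃ i, ∀ m, Q Y y m z ↔ Λ i m

/-! ### Sums -/

/-- the `i`-th label of the list `Λ` occurs in the orbit of `z` -/
def lc (Λ : ℕ → ℕ → Prop) (Y : R2) (y z i : ℕ) : Prop :=
  ∃ n z', ac Y n z z' ∧ ∀ m, Q Y y m z' ↔ Λ i m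

/-- the first label of the list which occurs in the orbit of `z` has number `i` -/
def fl (Λ : ℕ → ℕ → Prop) (Y : R2) (y z i : ℕ) : Prop :=
  lc Λ Y y z i ∧ ∀ j < i, ¬ lc Λ Y y z j

/-- the order of the classes over `y` -/
def bel (Λ : ℕ → ℕ → Prop) (Y : R2) (y a b : ℕ) : Prop :=
  (∃ i j, fl Λ Y y a i ∧ fl Λ Y y b j ∧ i < j) ∨
  ((∃ i, fl Λ Y y a i ∧ fl Λ Y y b i) ∧ b ∉ Ob Y y a ∧
    ∃ n m x x', ac Y n a x ∧ ac Y m b x' ∧ sl Y y x x' ∧ lt Y x x')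

open Classical in
/-- the structure `Y` as an ordered sum of the classes over `y` -/
noncomputable def sha (Λ : ℕ → ℕ → Prop) (Y : R2) (y : ℕ) : St ar :=
  (fun a b => decide (bel Λ Y y a b),
    mk (fun a b => lt Y a b ∧ b ∈ Ob Y y a) (ac Y) (co (lb Y y)))

/-- the way back -/
noncomputable def fla (M : St ar) : R2 :=
  mk (fun a b => lt M.2 a b ∨ ((M.1 a b = true ∨ M.1 b a = true) ∧
      ((∃ k, (¬ co M.2 (4 * k + 1) a ∧ co M.2 (4 * k + 1) b) ∨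
        (¬ co M.2 (4 * k + 1) a ∧ ¬ co M.2 (4 * k + 3) a ∧ co M.2 (4 * k + 3) b)) ∨
      ((∀ m, co M.2 (2 * m + 1) a ↔ co M.2 (2 * m + 1) b) ∧ M.1 a b = true))))
    (ac M.2) (fun n a => co M.2 (2 * n) a)

/-- SHA -/
def S_SHA : Prop := ∀ (Γ : Type) [Group Γ] (g : ℕ → Γ), Function.Surjective g →
  ∀ (Λ : ℕ → ℕ → Prop) (Y : R2) (y : ℕ), MB g ⊤ Y →
  (∀ z, ∃ i, ∀ m, Q Y y m z ↔ Λ i m) →
  OS (sha Λ Y y) ∧ (∀ x, Ic (sha Λ Y y) x x = Ob Y y x) ∧ fla (sha Λ Y y) = Y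

/-- PSL: if all classes over a point are small, then the structure is thin -/
def S_PSL : Prop := ∀ (Γ : Type) [Group Γ] (g : ℕ → Γ), Function.Surjective g →
  ∀ (R : R2) (y : ℕ) (β γ : Ordinal.{0}), MB g ⊤ R → Ordinal.omega0 ≤ β → β + 2 ≤ γ →
  γ < Ordinal.omega 1 → Few γ R → (∀ z, ¬ orb R y z → Sm β (lb R y) (Ob R y z)) → Thin γ R

/-! ### One big class over every point -/

/-- one-ended structures -/
structure OneEnd (β : Ordinal.{0}) (R : R2) : Prop where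
  ex : ∀ y, ∃ z, Bg β R y z
  un : ∀ y z z', Bg β R y z → Bg β R y z' → z' ∈ Ob R y z
  tr : ∀ y z w, Bg β R y z → Bg β R z w → Bg β R y w

/-- `z` is in the same cut over `y` as an element of the big class, and below it -/
def Lr (β : Ordinal.{0}) (Y : R2) (y z : ℕ) : Prop :=
  ¬ Bg β Y y z ∧ ∃ w, Bg β Y y w ∧ sl Y y z w ∧ lt Y z w

/-- the union of the small classes over `y` -/
def Sp (β : Ordinal.{0}) (Y : R2) (y : ℕ) : Set ℕ := {z | ¬ Bg β Y y z ∧ ¬ orb Y y z}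

/-- labels for `Sp` -/
def PA (β : Ordinal.{0}) (Y : R2) (y k v : ℕ) : Prop :=
  if k % 2 = 0 then Q Y y (k / 2) v else Lr β Y y v

/-- OEB: basic facts -/
def S_OEB : Prop := ∀ (Γ : Type) [Group Γ] (g : ℕ → Γ), Function.Surjective g →
  ∀ (Y : R2) (β : Ordinal.{0}), MB g ⊤ Y → Ordinal.omega0 ≤ β → OneEnd β Y →
  (∀ y z w, Bg β Y y w → Bg β Y y z ∨ Bg β Y z w) ∧
  (∀ y z w, Bg β Y y w → (Bg β Y y z ↔ z ∈ Ob Y y w)) ∧
  (∀ n y z z', ac Y n z z' → (Bg β Y y z ↔ Bg β Y y z')) ∧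
  (∀ y z w, ¬ Bg β Y y z → Bg β Y y w → sl Y y z w → (lt Y z w ↔ Lr β Y y z)) ∧
  (∀ y, Mod (Sp β Y y) (PA β Y y) Y)

/-- OET: transfer of the one-endedness -/
def S_OET : Prop := ∀ (Γ : Type) [Group Γ] (g : ℕ → Γ), Function.Surjective g →
  ∀ (R Y : R2) (β : Ordinal.{0}), MB g ⊤ R → Ordinal.omega0 ≤ β → OneEnd β R →
  (∀ (q : Set (ℕ × ℕ)) (y z y' z' : ℕ), BF (lift R) (lift Y) univ univ β q → (y, y') ∈ q →
    (z, z') ∈ q → (Bg β R y z ↔ Bg β Y y' z')) ∧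
  (∀ (q : Set (ℕ × ℕ)) (y z y' z' : ℕ), BF (lift R) (lift Y) univ univ (β + 1) q →
    (y, y') ∈ q → (z, z') ∈ q → (Lr β R y z ↔ Lr β Y y' z')) ∧
  (BF (lift R) (lift Y) univ univ (β + 3) ∅ → OneEnd β Y) ∧
  (∀ (q : Set (ℕ × ℕ)) (y y' : ℕ) (o : Ordinal.{0}),
    BF (lift R) (lift Y) univ univ (β + 1 + o) q → (y, y') ∈ q →
    BF (lift (ex (PA β R y) R)) (lift (ex (PA β Y y') Y)) (Sp β R y) (Sp β Y y') o ∅)

/-- OES: the small part over a point -/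
def S_OES : Prop := ∀ (Γ : Type) [Group Γ] (g : ℕ → Γ), Function.Surjective g →
  ∀ (R : R2) (β γ : Ordinal.{0}), MB g ⊤ R → Ordinal.omega0 ≤ β → β + 3 ≤ γ →
  γ < Ordinal.omega 1 → Few γ R → OneEnd β R → ∀ y,
  Few γ (Nm (Sp β R y) R) ∧ Thin γ (Nm (Sp β R y) R) ∧ Sm γ (ex (PA β R y) R) (Sp β R y)

/-- EXTW: isomorphisms of the closed segments -/
def S_EXTW : Prop := ∀ (Γ : Type) [Group Γ] (g : ℕ → Γ), Function.Surjective g →
  ∀ (Y Y' : R2) (β : Ordinal.{0}) (m m' w w' : ℕ), MB g ⊤ Y → MB g ⊤ Y' →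
  Ordinal.omega0 ≤ β → OneEnd β Y → OneEnd β Y' →
  BF (lift Y) (lift Y') univ univ 2 {(m, m')} →
  IsoOn (lift (ex (PA β Y m) Y)) (lift (ex (PA β Y' m') Y')) (Sp β Y m) (Sp β Y' m') ∅ →
  Bg β Y m w → Bg β Y' m' w' → (∀ k, Q Y m k w ↔ Q Y' m' k w') →
  ∃ φ : {k // ¬ Bg β Y m k} ≃ {k // ¬ Bg β Y' m' k},
    (∀ a b, lt Y' (φ a) (φ b) ↔ lt Y a b) ∧ (∀ n a b, ac Y' n (φ a) (φ b) ↔ ac Y n a b) ∧
    (∀ n a, co Y' n (φ a) ↔ co Y n a) ∧ (∀ a b, Bg β Y' (φ a) (φ b) ↔ Bg β Y a b) ∧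
    (∀ a b, Lr β Y' (φ a) (φ b) ↔ Lr β Y a b)

/-- HEXT: automorphisms of the closed segments extend -/
def S_HEXT : Prop := ∀ (Γ : Type) [Group Γ] (g : ℕ → Γ), Function.Surjective g →
  ∀ (Y : R2) (β : Ordinal.{0}) (m : ℕ), MB g ⊤ Y → Ordinal.omega0 ≤ β → OneEnd β Y →
  ∀ φ : {k // ¬ Bg β Y m k} ≃ {k // ¬ Bg β Y m k},
    (∀ a b, lt Y (φ a) (φ b) ↔ lt Y a b) → (∀ n a b, ac Y n (φ a) (φ b) ↔ ac Y n a b) →
    (∀ n a, co Y n (φ a) ↔ co Y n a) → (∀ a b, Lr β Y (φ a) (φ b) ↔ Lr β Y a b) →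
    (∀ a : {k // ¬ Bg β Y m k}, (a : ℕ) = m → (φ a : ℕ) = m) →
    ∃ σ : Equiv.Perm ℕ, (∀ x y, lt Y (σ x) (σ y) ↔ lt Y x y) ∧
      (∀ n x y, ac Y n (σ x) (σ y) ↔ ac Y n x y) ∧ (∀ n x, co Y n (σ x) ↔ co Y n x) ∧
      ∀ a : {k // ¬ Bg β Y m k}, σ a = φ a

/-- OEM: measurability -/
def S_OEM : Prop := ∀ (Γ : Type) [Group Γ] (g : ℕ → Γ), Function.Surjective g →
  ∀ (R : R2) (β γ : Ordinal.{0}), MB g ⊤ R → Ordinal.omega0 ≤ β → β + 3 ≤ γ →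
  γ < Ordinal.omega 1 → OneEnd β R →
  (∀ y z, MeasurableSet {Y : R2 | BF (lift R) (lift Y) univ univ γ ∅ ∧ Bg β Y y z}) ∧
  (∀ y z, MeasurableSet {Y : R2 | BF (lift R) (lift Y) univ univ γ ∅ ∧ Lr β Y y z})

/-- OE: one-ended structures are thin, uniformly -/
def S_OE : Prop := ∀ (Γ : Type) [Group Γ] (g : ℕ → Γ), Function.Surjective g →
  ∀ (R : R2) (β : Ordinal.{0}), MB g ⊤ R → Ordinal.omega0 ≤ β → β < Ordinal.omega 1 →
  Few (β * Ordinal.omega0) R → OneEnd β R → Thin (β * Ordinal.omega0 + 1) R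

/-! ### The end -/

/-- REC -/
def S_REC : Prop := ∀ (Γ : Type) [Group Γ] (g : ℕ → Γ), Function.Surjective g →
  ∀ (R : R2) (α : Ordinal.{0}), MB g ⊤ R → Ordinal.omega0 ≤ α → α < Ordinal.omega 1 →
  Few α R → Thin (α * Ordinal.omega0 + Ordinal.omega0 * Ordinal.omega0) R

/-- FIN -/
def S_FIN : Prop := ∀ (Γ : Type) [Group Γ] (g : ℕ → Γ), Function.Surjective g → VC (MB g ⊤)

end Pool.Agent.Y560.TG
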