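import Pool.Agent.H566P.All
import Pool.Agent.H899R2.VP.Few

/-!
Project TG: Vaught's conjecture for linear orders with an action of an arbitrary countable group
(by automorphisms) and unary predicates. Definitions and basic facts.
-/

set_option autoImplicit false

namespace Pool.Agent.Y560.TG

open Set MeasureTheory
open Pool.Agent.H899R2.VP (St Adj PIso BF IsoOn idOn inv comp zipSet)
open Pool.Agent.H533R2.VO (RS lift put OS Ic RIso Dich VC BlkV S_FINAL)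
open Pool.Agent.H566P (ar R2 v2 a0 a1 lt ac co mk LA LL MB lab sh prec pull S_ACC S_MSG)

/-! ### The coding -/

theorem acc : S_ACC := Pool.Agent.H566P.t_ACC
theorem msg : S_MSG := Pool.Agent.H566P.t_MSG

theorem lt_mk (L A C x y) : lt (mk L A C) x y ↔ L x y := acc.1 L A C x y
theorem ac_mk (L A C n x y) : ac (mk L A C) n x y ↔ A n x y := acc.2.1 L A C n x y
theorem co_mk (L A C n x) : co (mk L A C) n x ↔ C n x := acc.2.2.1 L A C n x

theorem R2_ext {R R' : R2} (h1 : ∀ x y, lt R x y ↔ lt R' x y)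
    (h2 : ∀ n x y, ac R n x y ↔ ac R' n x y) (h3 : ∀ n x, co R n x ↔ co R' n x) : R = R' :=
  acc.2.2.2.1 R R' h1 h2 h3

theorem piso_iff {R R' : R2} {p : Set (ℕ × ℕ)} : PIso (lift R) (lift R') p ↔
    (∀ u ∈ p, ∀ v ∈ p, (u.1 = v.1 ↔ u.2 = v.2)) ∧
    (∀ u ∈ p, ∀ v ∈ p, (lt R u.1 v.1 ↔ lt R' u.2 v.2)) ∧
    (∀ n, ∀ u ∈ p, ∀ v ∈ p, (ac R n u.1 v.1 ↔ ac R' n u.2 v.2)) ∧
    (∀ n, ∀ u ∈ p, (co R n u.1 ↔ co R' n u.2)) := acc.2.2.2.2.1 R R' p

theorem riso_iff {R R' : R2} : RIso R R' ↔ ∃ σ : Equiv.Perm ℕ,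
    (∀ x y, lt R' (σ x) (σ y) ↔ lt R x y) ∧
    (∀ n x y, ac R' n (σ x) (σ y) ↔ ac R n x y) ∧ (∀ n x, co R' n (σ x) ↔ co R n x) :=
  acc.2.2.2.2.2.1 R R'

theorem riso_isoOn {R R' : R2} : RIso R R' ↔ IsoOn (lift R) (lift R') univ univ ∅ :=
  acc.2.2.2.2.2.2.1 R R'

theorem meas_lt (x y : ℕ) : MeasurableSet {R : R2 | lt R x y} := acc.2.2.2.2.2.2.2.1 x y
theorem meas_ac (n x y : ℕ) : MeasurableSet {R : R2 | ac R n x y} :=
  acc.2.2.2.2.2.2.2.2.1 n x y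
theorem meas_co (n x : ℕ) : MeasurableSet {R : R2 | co R n x} := acc.2.2.2.2.2.2.2.2.2.1 n x

/-- A map into `R2` is measurable if the atomic facts are. -/
theorem meas_into {Ω : Type} [MeasurableSpace Ω] {Φ : Ω → R2}
    (h1 : ∀ x y, MeasurableSet {ω | lt (Φ ω) x y})
    (h2 : ∀ n x y, MeasurableSet {ω | ac (Φ ω) n x y})
    (h3 : ∀ n x, MeasurableSet {ω | co (Φ ω) n x}) : Measurable Φ :=
  acc.2.2.2.2.2.2.2.2.2.2.1 Ω Φ h1 h2 h3

/-- A map into `R2` is continuous if the atomic facts are clopen. -/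
theorem cont_into {Ω : Type} [TopologicalSpace Ω] {Φ : Ω → R2}
    (h1 : ∀ x y, IsClopen {ω | lt (Φ ω) x y})
    (h2 : ∀ n x y, IsClopen {ω | ac (Φ ω) n x y})
    (h3 : ∀ n x, IsClopen {ω | co (Φ ω) n x}) : Continuous Φ :=
  acc.2.2.2.2.2.2.2.2.2.2.2 Ω Φ h1 h2 h3

theorem piso_lt {R R' : R2} {p : Set (ℕ × ℕ)} (h : PIso (lift R) (lift R') p) {x x' y y' : ℕ}
    (hx : (x, x') ∈ p) (hy : (y, y') ∈ p) : lt R x y ↔ lt R' x' y' :=
  (piso_iff.1 h).2.1 _ hx _ hy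
theorem piso_ac {R R' : R2} {p : Set (ℕ × ℕ)} (h : PIso (lift R) (lift R') p) {n x x' y y' : ℕ}
    (hx : (x, x') ∈ p) (hy : (y, y') ∈ p) : ac R n x y ↔ ac R' n x' y' :=
  (piso_iff.1 h).2.2.1 n _ hx _ hy
theorem piso_co {R R' : R2} {p : Set (ℕ × ℕ)} (h : PIso (lift R) (lift R') p) {n x x' : ℕ}
    (hx : (x, x') ∈ p) : co R n x ↔ co R' n x' :=
  (piso_iff.1 h).2.2.2 n _ hx
theorem piso_eq {R R' : R2} {p : Set (ℕ × ℕ)} (h : PIso (lift R) (lift R') p) {x x' y y' : ℕ}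
    (hx : (x, x') ∈ p) (hy : (y, y') ∈ p) : x = y ↔ x' = y' :=
  (piso_iff.1 h).1 _ hx _ hy

/-! ### Definitions -/

/-- Expansion of `R` by the unary predicates `P k`: the predicates of `R` get the even numbers,
`P k` the number `2 k + 1`. -/
noncomputable def ex (P : ℕ → ℕ → Prop) (R : R2) : R2 :=
  mk (lt R) (ac R) fun m v => if m % 2 = 0 then co R (m / 2) v else P (m / 2) v

@[simp] theorem lt_ex (P : ℕ → ℕ → Prop) (R : R2) (x y : ℕ) : lt (ex P R) x y ↔ lt R x y :=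
  lt_mk _ _ _ _ _
@[simp] theorem ac_ex (P : ℕ → ℕ → Prop) (R : R2) (n x y : ℕ) :
    ac (ex P R) n x y ↔ ac R n x y := ac_mk _ _ _ _ _ _
@[simp] theorem co_ex_even (P : ℕ → ℕ → Prop) (R : R2) (n x : ℕ) :
    co (ex P R) (2 * n) x ↔ co R n x := by
  unfold ex
  rw [co_mk, if_pos (by omega), show 2 * n / 2 = n by omega]
@[simp] theorem co_ex_odd (P : ℕ → ℕ → Prop) (R : R2) (n x : ℕ) :
    co (ex P R) (2 * n + 1) x ↔ P n x := by
  unfold ex
  rw [co_mk, if_neg (by omega), show (2 * n + 1) / 2 = n by omega]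

theorem piso_ex {P P' : ℕ → ℕ → Prop} {R R' : R2} {p : Set (ℕ × ℕ)} :
    PIso (lift (ex P R)) (lift (ex P' R')) p ↔
    PIso (lift R) (lift R') p ∧ ∀ k, ∀ u ∈ p, (P k u.1 ↔ P' k u.2) := by
  rw [piso_iff, piso_iff]
  simp only [lt_ex, ac_ex]
  constructor
  · rintro ⟨h1, h2, h3, h4⟩
    refine ⟨⟨h1, h2, h3, fun n u hu => ?_⟩, fun k u hu => ?_⟩
    · have := h4 (2 * n) u hu
      rwa [co_ex_even, co_ex_even] at this
    · have := h4 (2 * k + 1) u hu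
      rwa [co_ex_odd, co_ex_odd] at this
  · rintro ⟨⟨h1, h2, h3, h4⟩, h5⟩
    refine ⟨h1, h2, h3, fun n u hu => ?_⟩
    obtain ⟨k, rfl | rfl⟩ : ∃ k, n = 2 * k ∨ n = 2 * k + 1 := ⟨n / 2, by omega⟩
    · rw [co_ex_even, co_ex_even]; exact h4 k u hu
    · rw [co_ex_odd, co_ex_odd]; exact h5 k u hu

/-- `v` is in the orbit of `u`. -/
def orb (R : R2) (u v : ℕ) : Prop := ∃ n, ac R n u v

/-- The label of `v` over `y`: `Q R y (2 k) v` says `g k • y < v`, `Q R y (2 k + 1) v` says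
`g k • y = v`. -/
def Q (R : R2) (y m v : ℕ) : Prop :=
  if m % 2 = 0 then ∃ z, ac R (m / 2) y z ∧ lt R z v else ac R (m / 2) y v

theorem Q_even (R : R2) (y k v : ℕ) : Q R y (2 * k) v ↔ ∃ z, ac R k y z ∧ lt R z v := by
  unfold Q
  rw [if_pos (by omega), show 2 * k / 2 = k by omega]
theorem Q_odd (R : R2) (y k v : ℕ) : Q R y (2 * k + 1) v ↔ ac R k y v := by
  unfold Q
  rw [if_neg (by omega), show (2 * k + 1) / 2 = k by omega]

/-- The structure with the labels over `y` as additional predicates. -/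
noncomputable def lb (R : R2) (y : ℕ) : R2 := ex (Q R y) R

/-- `v` and `w` have the same label over `y`. -/
def sl (R : R2) (y v w : ℕ) : Prop := ∀ m, Q R y m v ↔ Q R y m w

/-- The class of `v` over `u`: the union of the translates of the convex hull of the points of the
orbit of `v` with the same label over `u` as `v`. -/
def Ob (R : R2) (u v : ℕ) : Set ℕ :=
  {t | ∃ n m z w, ac R n v z ∧ ac R m v w ∧ ¬ lt R t z ∧ ¬ lt R w t ∧ sl R u z w}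

/-- All elements outside `O` are named. -/
noncomputable def Nm (O : Set ℕ) (R : R2) : R2 := ex (fun k v => v = k ∧ v ∉ O) R

/-- `V` agrees with `R` at all tuples which are not inside `O`. -/
def Off (O : Set ℕ) (R V : R2) : Prop :=
  (∀ x y, ¬ (x ∈ O ∧ y ∈ O) → (lt V x y ↔ lt R x y)) ∧
  (∀ n x y, ¬ (x ∈ O ∧ y ∈ O) → (ac V n x y ↔ ac R n x y)) ∧
  ∀ n x, x ∉ O → (co V n x ↔ co R n x)

/-- `O` is an invariant set, and the labels `P` of the elements of `O` are the ways in which they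
compare with the elements outside `O`. -/
def Mod (O : Set ℕ) (P : ℕ → ℕ → Prop) (R : R2) : Prop :=
  (∀ n x z, ac R n x z → (x ∈ O ↔ z ∈ O)) ∧
  ∀ v ∈ O, ∀ v' ∈ O, (∀ k, P k v ↔ P k v') ↔
    ∀ u ∉ O, (lt R v u ↔ lt R v' u) ∧ (lt R u v ↔ lt R u v')

/-- `(R, X)` is `β`-small: there are only countably many isomorphism types of pairs which are
back-and-forth equivalent to it of rank `β`. -/
def Sm (β : Ordinal.{0}) (R : R2) (X : Set ℕ) : Prop :=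
  ∃ f : ℕ → R2 × Set ℕ, ∀ (N : R2) (Y : Set ℕ), BF (lift R) (lift N) X Y β ∅ →
    ∃ n, IsoOn (lift (f n).1) (lift N) (f n).2 Y ∅

/-- The class of `R` for back-and-forth equivalence of rank `β` has only countably many
isomorphism types. -/
def Thin (β : Ordinal.{0}) (R : R2) : Prop :=
  ∃ f : ℕ → R2, ∀ V : R2, BF (lift R) (lift V) univ univ β ∅ → ∃ n, RIso (f n) V

/-- The class of `R` for back-and-forth equivalence of rank `β` has no perfect set of pairwise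
non-isomorphic structures. -/
def Few (β : Ordinal.{0}) (R : R2) : Prop :=
  ¬ ∃ c : (ℕ → Bool) → R2, Continuous c ∧
    (∀ A, BF (lift R) (lift (c A)) univ univ β ∅) ∧ ∀ A A', RIso (c A) (c A') → A = A'

/-! ### The action -/

section act

variable {Γ : Type} [Group Γ] {g : ℕ → Γ} {R : R2} {t : Γ → ℕ → ℕ}

theorem la_mul (h : LA g ⊤ R t) (γ δ : Γ) (x : ℕ) : t (γ * δ) x = t γ (t δ x) :=
  h.mul γ (Subgroup.mem_top _) δ (Subgroup.mem_top _) x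
theorem la_inv (h : LA g ⊤ R t) (γ : Γ) (x : ℕ) : t γ⁻¹ (t γ x) = x := by
  rw [← la_mul h, inv_mul_cancel, h.one]
theorem la_inv' (h : LA g ⊤ R t) (γ : Γ) (x : ℕ) : t γ (t γ⁻¹ x) = x := by
  rw [← la_mul h, mul_inv_cancel, h.one]
theorem la_lt (h : LA g ⊤ R t) (γ : Γ) (x y : ℕ) : lt R (t γ x) (t γ y) ↔ lt R x y := by
  refine ⟨fun h1 => ?_, h.mono γ (Subgroup.mem_top _) x y⟩
  have := h.mono γ⁻¹ (Subgroup.mem_top _) _ _ h1
  rwa [la_inv h, la_inv h] at this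
theorem la_ac (h : LA g ⊤ R t) (n x y : ℕ) : ac R n x y ↔ t (g n) x = y := by
  rw [h.act]
  exact ⟨fun h1 => h1.2, fun h1 => ⟨Subgroup.mem_top _, h1⟩⟩
theorem la_inj (h : LA g ⊤ R t) (γ : Γ) {x y : ℕ} : t γ x = t γ y ↔ x = y := by
  refine ⟨fun h1 => ?_, fun h1 => by rw [h1]⟩
  rw [← la_inv h γ x, h1, la_inv h]
/-- `x ≤ y < z` -/
theorem la_le_lt (h : LA g ⊤ R t) {x y z : ℕ} (h1 : ¬ lt R y x) (h2 : lt R y z) : lt R x z := by
  by_cases e : x = y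
  · rwa [e]
  · rcases h.tot x y e with h3 | h3
    · exact h.tr _ _ _ h3 h2
    · exact absurd h3 h1
/-- `x < y ≤ z` -/
theorem la_lt_le (h : LA g ⊤ R t) {x y z : ℕ} (h1 : lt R x y) (h2 : ¬ lt R z y) : lt R x z := by
  by_cases e : y = z
  · rwa [← e]
  · rcases h.tot y z e with h3 | h3
    · exact h.tr _ _ _ h1 h3
    · exact absurd h3 h2
/-- `x ≤ y ≤ z` -/
theorem la_le (h : LA g ⊤ R t) {x y z : ℕ} (h1 : ¬ lt R y x) (h2 : ¬ lt R z y) :
    ¬ lt R z x := fun h3 => h1 (la_le_lt h h2 h3)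
theorem la_asymm (h : LA g ⊤ R t) {x y : ℕ} (h1 : lt R x y) : ¬ lt R y x :=
  fun h2 => h.irr _ (h.tr _ _ _ h1 h2)
theorem la_antisymm (h : LA g ⊤ R t) {x y : ℕ} (h1 : ¬ lt R x y) (h2 : ¬ lt R y x) : x = y := by
  by_contra e
  rcases h.tot x y e with h3 | h3
  · exact h1 h3
  · exact h2 h3

theorem orb_iff (hg : Function.Surjective g) (h : LA g ⊤ R t) {u v : ℕ} :
    orb R u v ↔ ∃ γ, t γ u = v := by
  unfold orb
  constructor
  · rintro ⟨n, hn⟩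
    exact ⟨g n, (la_ac h _ _ _).1 hn⟩
  · rintro ⟨γ, hγ⟩
    obtain ⟨n, rfl⟩ := hg γ
    exact ⟨n, (la_ac h _ _ _).2 hγ⟩

theorem Q_even_iff (h : LA g ⊤ R t) {y k v : ℕ} : Q R y (2 * k) v ↔ lt R (t (g k) y) v := by
  rw [Q_even]
  constructor
  · rintro ⟨z, h1, h2⟩
    rwa [← (la_ac h _ _ _).1 h1] at h2
  · exact fun h1 => ⟨_, (la_ac h _ _ _).2 rfl, h1⟩
theorem Q_odd_iff (h : LA g ⊤ R t) {y k v : ℕ} : Q R y (2 * k + 1) v ↔ t (g k) y = v := by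
  rw [Q_odd, la_ac h]

theorem sl_iff (hg : Function.Surjective g) (h : LA g ⊤ R t) {y v w : ℕ} :
    sl R y v w ↔ ∀ γ, (lt R (t γ y) v ↔ lt R (t γ y) w) ∧ (t γ y = v ↔ t γ y = w) := by
  constructor
  · intro h1 γ
    obtain ⟨n, rfl⟩ := hg γ
    have h2 := h1 (2 * n)
    have h3 := h1 (2 * n + 1)
    rw [Q_even_iff h, Q_even_iff h] at h2
    rw [Q_odd_iff h, Q_odd_iff h] at h3
    exact ⟨h2, h3⟩
  · intro h1 m
    obtain ⟨k, rfl | rfl⟩ : ∃ k, m = 2 * k ∨ m = 2 * k + 1 := ⟨m / 2, by omega⟩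
    · rw [Q_even_iff h, Q_even_iff h]; exact (h1 _).1
    · rw [Q_odd_iff h, Q_odd_iff h]; exact (h1 _).2

theorem mem_Ob (hg : Function.Surjective g) (h : LA g ⊤ R t) {u v x : ℕ} :
    x ∈ Ob R u v ↔ ∃ γ δ, ¬ lt R x (t γ v) ∧ ¬ lt R (t δ v) x ∧ sl R u (t γ v) (t δ v) := by
  constructor
  · rintro ⟨n, m, z, w, h1, h2, h3, h4, h5⟩
    rw [la_ac h] at h1 h2
    subst h1 h2
    exact ⟨g n, g m, h3, h4, h5⟩
  · rintro ⟨γ, δ, h3, h4, h5⟩
    obtain ⟨n, rfl⟩ := hg γ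
    obtain ⟨m, rfl⟩ := hg δ
    exact ⟨n, m, _, _, (la_ac h _ _ _).2 rfl, (la_ac h _ _ _).2 rfl, h3, h4, h5⟩

theorem mb_ex {P : ℕ → ℕ → Prop} (h : MB g ⊤ R) : MB g ⊤ (ex P R) := by
  obtain ⟨t, h1, h2⟩ := h
  refine ⟨t, ⟨?_, ?_, ?_, h1.one, h1.mul, ?_, ?_⟩, ?_⟩
  · simpa only [lt_ex] using h1.irr
  · simpa only [lt_ex] using h1.tr
  · simpa only [lt_ex] using h1.tot
  · simpa only [lt_ex] using h1.mono
  · simpa only [ac_ex] using h1.act
  · simpa only [lt_ex] using h2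

theorem mb_nm {O : Set ℕ} (h : MB g ⊤ R) : MB g ⊤ (Nm O R) := mb_ex h

theorem MB.la (h : MB g ⊤ R) : ∃ t, LA g ⊤ R t ∧ ∀ x y, (∃ γ, lt R y (t γ x)) ∧
    ∃ γ, lt R (t γ x) y := by
  obtain ⟨t, h1, h2⟩ := h
  refine ⟨t, h1, fun x y => ?_⟩
  obtain ⟨⟨γ, -, h3⟩, δ, -, h4⟩ := h2 x y
  exact ⟨⟨γ, h3⟩, δ, h4⟩

end act

theorem Q_ex (P : ℕ → ℕ → Prop) (R : R2) (y m v : ℕ) : Q (ex P R) y m v ↔ Q R y m v := by
  simp only [Q, ac_ex, lt_ex]
theorem sl_ex (P : ℕ → ℕ → Prop) (R : R2) (y v w : ℕ) : sl (ex P R) y v w ↔ sl R y v w := by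
  simp only [sl, Q_ex]
theorem Ob_ex (P : ℕ → ℕ → Prop) (R : R2) (u v : ℕ) : Ob (ex P R) u v = Ob R u v := by
  simp only [Ob, ac_ex, lt_ex, sl_ex]
theorem orb_ex (P : ℕ → ℕ → Prop) (R : R2) (u v : ℕ) : orb (ex P R) u v ↔ orb R u v := by
  simp only [orb, ac_ex]

/-! ### Basic facts on smallness -/

theorem sl_refl (R : R2) (y v : ℕ) : sl R y v v := fun _ => Iff.rfl
theorem sl_symm {R : R2} {y v w : ℕ} (h : sl R y v w) : sl R y w v := fun m => (h m).symm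
theorem sl_trans {R : R2} {y v w x : ℕ} (h : sl R y v w) (h' : sl R y w x) : sl R y v x :=
  fun m => (h m).trans (h' m)

theorem bf_trans0 {M N K : R2} {X Y Z : Set ℕ} {β : Ordinal.{0}}
    (h : BF (lift M) (lift N) X Y β ∅) (h' : BF (lift N) (lift K) Y Z β ∅) :
    BF (lift M) (lift K) X Z β ∅ := (h.comp h').subset (empty_subset _)
theorem bf_symm0 {M N : R2} {X Y : Set ℕ} {β : Ordinal.{0}}
    (h : BF (lift M) (lift N) X Y β ∅) : BF (lift N) (lift M) Y X β ∅ :=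
  h.symm.subset (empty_subset _)
theorem iso_trans0 {M N K : R2} {X Y Z : Set ℕ}
    (h : IsoOn (lift M) (lift N) X Y ∅) (h' : IsoOn (lift N) (lift K) Y Z ∅) :
    IsoOn (lift M) (lift K) X Z ∅ := (h.trans h').mono (empty_subset _)
theorem iso_symm0 {M N : R2} {X Y : Set ℕ}
    (h : IsoOn (lift M) (lift N) X Y ∅) : IsoOn (lift N) (lift M) Y X ∅ :=
  h.symm.mono (empty_subset _)
theorem iso_refl0 (M : R2) (X : Set ℕ) : IsoOn (lift M) (lift M) X X ∅ :=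
  (IsoOn.refl _ _).mono (empty_subset _)

theorem Sm.mono {β β' : Ordinal.{0}} {R : R2} {X : Set ℕ} (h : Sm β R X) (hb : β ≤ β') :
    Sm β' R X := by
  obtain ⟨f, hf⟩ := h
  exact ⟨f, fun N Y h1 => hf N Y (h1.mono hb)⟩
theorem Sm.congr {β : Ordinal.{0}} {R R' : R2} {X X' : Set ℕ} (h : Sm β R X)
    (h' : BF (lift R) (lift R') X X' β ∅) : Sm β R' X' := by
  obtain ⟨f, hf⟩ := h
  exact ⟨f, fun N Y h1 => hf N Y (bf_trans0 h' h1)⟩
theorem Thin.mono {β β' : Ordinal.{0}} {R : R2} (h : Thin β R) (hb : β ≤ β') : Thin β' R := by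
  obtain ⟨f, hf⟩ := h
  exact ⟨f, fun N h1 => hf N (h1.mono hb)⟩
theorem Few.mono {β β' : Ordinal.{0}} {R : R2} (h : Few β R) (hb : β ≤ β') : Few β' R := by
  rintro ⟨c, h1, h2, h3⟩
  exact h ⟨c, h1, fun A => (h2 A).mono hb, h3⟩
theorem Few.congr {β : Ordinal.{0}} {R R' : R2} (h : Few β R)
    (h' : BF (lift R) (lift R') univ univ β ∅) : Few β R' := by
  rintro ⟨c, h1, h2, h3⟩
  exact h ⟨c, h1, fun A => bf_trans0 h' (h2 A), h3⟩

end Pool.Agent.Y560.TG
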